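import Pool.Agent.H621R2.Fd.Sound

/-!
Faithful drawings: generic placement of gadgets.
-/

set_option autoImplicit false

namespace Pool.Agent.H621R2.Fd

open Pool.Agent.H621R2 Filter

/-- the projective transformation from the chart to the plane -/
noncomputable def ψ (Q : Pt) : Pt := (Q.1 / Q.2, 1 / Q.2)

theorem psi_col {A B C : Pt} (hA : A.2 ≠ 0) (hB : B.2 ≠ 0) (hC : C.2 ≠ 0) :
    Col (ψ A) (ψ B) (ψ C) ↔ Col A B C := by
  have key : cr (ψ B - ψ A) (ψ C - ψ A) = - cr (B - A) (C - A) / (A.2 * B.2 * C.2) := by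
    simp only [ψ, cr, Prod.fst_sub, Prod.snd_sub]
    field_simp
    ring
  rw [Col, Col, key]
  have h : A.2 * B.2 * C.2 ≠ 0 := mul_ne_zero (mul_ne_zero hA hB) hC
  constructor
  · intro h0
    rw [div_eq_zero_iff] at h0
    rcases h0 with h0 | h0
    · linarith
    · exact absurd h0 h
  · intro h0
    rw [h0]; simp

theorem psi_dir {A B D : Pt} (hA : A.2 ≠ 0) (hB : B.2 ≠ 0) (hD : D.2 ≠ 0) (h : cr (B - A) D = 0) :
    Col (ψ A) (ψ B) (D.1 / D.2, 0) := by
  simp only [cr, Prod.fst_sub, Prod.snd_sub] at h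
  simp only [Col, ψ, cr, Prod.fst_sub, Prod.snd_sub]
  have key : (B.1 / B.2 - A.1 / A.2) * (0 - 1 / A.2) - (1 / B.2 - 1 / A.2) * (D.1 / D.2 - A.1 / A.2)
      = - ((B.1 - A.1) * D.2 - (B.2 - A.2) * D.1) / (A.2 * B.2 * D.2) := by
    field_simp
    ring
  rw [key, h]
  simp

theorem psi_inj {A B : Pt} (hA : A.2 ≠ 0) (hB : B.2 ≠ 0) (h : ψ A = ψ B) : A = B := by
  have h1 := congrArg Prod.fst h
  have h2 := congrArg Prod.snd h
  simp only [ψ] at h1 h2
  have h3 : A.2 = B.2 := by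
    field_simp at h2
    linarith
  rw [h3] at h1
  have h4 : A.1 = B.1 := by
    field_simp at h1
    linarith
  exact Prod.ext h4 h3

theorem col_add {A B C t : Pt} : Col (A + t) (B + t) (C + t) ↔ Col A B C := by
  simp only [Col, add_sub_add_right_eq_sub]

theorem cr_add {A B t D : Pt} : cr (B + t - (A + t)) D = cr (B - A) D := by
  rw [add_sub_add_right_eq_sub]

theorem col_flip {A B C D : Pt} (hAB : A ≠ B) (h1 : Col A B C) (h2 : Col A B D) :
    Col C D A := by
  obtain ⟨s, hs⟩ := exists_param_of_col hAB h1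
  obtain ⟨t, ht⟩ := exists_param_of_col hAB h2
  rw [hs, ht]
  simp only [Col, cr, Prod.fst_sub, Prod.snd_sub, Prod.fst_add, Prod.snd_add, Prod.smul_fst,
    Prod.smul_snd, smul_eq_mul]
  ring

/-- the translation vectors -/
def mv (t : ℝ) : Pt := (t, t ^ 2)

/-- A translated point avoids a line. -/
theorem off_translate (A B C : Pt) (h : A ≠ B) : ∀ᶠ t : ℝ in cofinite, ¬ Col A B (C + mv t) := by
  have := cr_gen (A - C) (B - A) (sub_ne_zero.2 h.symm)
  refine this.mono ?_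
  intro t ht hc
  apply ht
  simp only [Col] at hc
  have e : cr ((t, t ^ 2) - (A - C)) (B - A) = - cr (B - A) (C + mv t - A) := by
    simp only [cr, mv, Prod.fst_sub, Prod.snd_sub, Prod.fst_add, Prod.snd_add]
    ring
  rw [e, hc, neg_zero]

theorem snd_translate (C : Pt) : ∀ᶠ t : ℝ in cofinite, (C + mv t).2 ≠ 0 := by
  have := off_translate (0, 0) (1, 0) C (by simp)
  refine this.mono ?_
  intro t ht h0
  apply ht
  simp only [Col, cr, Prod.fst_sub, Prod.snd_sub]
  rw [h0]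
  ring

theorem exists_seq (Pr : ℕ → ℝ → Prop) (hP : ∀ j, ∀ᶠ t in cofinite, Pr j t)
    (r : ℕ → ℕ → ℝ → ℝ → Prop) (hr : ∀ i j s, ∀ᶠ t in cofinite, r i j s t) :
    ∃ t : ℕ → ℝ, (∀ j, Pr j (t j)) ∧ ∀ i j, i < j → r i j (t i) (t j) := by
  have step : ∀ (n : ℕ) (f : ∀ m, m < n → ℝ), ∃ t, Pr n t ∧ ∀ m (hm : m < n), r m n (f m hm) t := by
    intro n f
    have h1 : ∀ᶠ t in cofinite, ∀ m : Fin n, r m n (f m m.2) t := eventually_all.2 (fun m => hr _ _ _)
    obtain ⟨t, ht⟩ := ((hP n).and h1).exists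
    exact ⟨t, ht.1, fun m hm => ht.2 ⟨m, hm⟩⟩
  choose g hg using step
  let t : ℕ → ℝ := fun n => Nat.strongRec (motive := fun _ => ℝ) (fun n f => g n f) n
  have ht : ∀ n, t n = g n (fun m _ => t m) := by
    intro n
    show Nat.strongRec (motive := fun _ => ℝ) (fun n f => g n f) n = _
    rw [Nat.strongRec_eq]
  refine ⟨t, ?_, ?_⟩
  · intro j
    rw [ht]
    exact (hg j _).1
  · intro i j hij
    rw [ht j]
    exact (hg j (fun m _ => t m)).2 i hij

/-- End vertices of the edges, locally. -/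
def prP : List (Fin 8 × Fin 8) :=
  [(1, 2), (4, 5), (2, 0), (5, 3), (0, 1), (3, 4), (0, 3), (1, 4), (2, 5), (0, 4), (1, 5), (2, 3)]

def quP : List (Fin 8 × Fin 8) :=
  [(0, 1), (2, 3), (0, 2), (1, 3), (0, 3), (1, 2), (4, 5), (6, 7), (4, 6), (5, 7), (4, 7), (5, 6),
    (0, 4), (1, 5), (2, 6), (3, 7)]

def gadP (s : Spec) : List (Fin 8 × Fin 8) := if s.1 = 0 then prP else quP

theorem gadP_ne {s : Spec} {e : Fin 8 × Fin 8} (he : e ∈ gadP s) : e.1 ≠ e.2 := by
  have h1 : ∀ e ∈ prP, e.1 ≠ e.2 := by decide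
  have h2 : ∀ e ∈ quP, e.1 ≠ e.2 := by decide
  rw [gadP] at he
  split_ifs at he
  · exact h1 _ he
  · exact h2 _ he

/-- A placement of one gadget in the chart. -/
structure Sh (D : ℕ → Pt) (s : Spec) (σ o : Fin 8 → Pt) : Prop where
  inj : Function.Injective σ
  dist : ∀ e ∈ gadP s, ∀ f ∈ gadP s, e ≠ f →
    ¬ (Col (σ e.1) (σ e.2) (σ f.1) ∧ Col (σ e.1) (σ e.2) (σ f.2))
  edge : ∀ j, ∀ e ∈ gadg s j, ∃ ab ∈ gadP s, e.1 = vx j ab.1 ∧ e.2.1 = vx j ab.2 ∧
    ((e.2.2 % 3 ≠ 2 ∧ cr (σ ab.2 - σ ab.1) (D e.2.2) = 0) ∨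
      ∃ m : Fin 8, e.2.2 = cF j m ∧ Col (σ ab.1) (σ ab.2) (o m))

theorem vx_div (j : ℕ) (i : Fin 8) : vx j i / 8 = j := by simp only [vx]; omega

theorem vx_mod (j : ℕ) (i : Fin 8) : vx j i % 8 = i := by simp only [vx]; omega

theorem cF_div (j : ℕ) (i : Fin 8) : (cF j i - 2) / 3 / 8 = j := by simp only [cF]; omega

theorem cF_mod (j : ℕ) (i : Fin 8) : (cF j i - 2) / 3 % 8 = i := by simp only [cF]; omega

theorem cF_mod3 (j i : ℕ) : cF j i % 3 = 2 := by simp only [cF]; omega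

theorem assemble (D : ℕ → Pt) (hD : ∀ c, c % 3 ≠ 2 → (D c).2 ≠ 0) (L : List Spec)
    (hL : ∀ s ∈ L, ∃ σ o, Sh D s σ o) : ∃ p P, FD (inst L) p P := by
  have h1 : ∀ j : ℕ, ∃ (σ o : Fin 8 → Pt), ∀ s, (s, j) ∈ L.zipIdx → Sh D s σ o := by
    intro j
    by_cases hj : ∃ s, (s, j) ∈ L.zipIdx
    · obtain ⟨s, hs⟩ := hj
      obtain ⟨σ, o, h⟩ := hL s (List.fst_mem_of_mem_zipIdx hs)
      refine ⟨σ, o, ?_⟩
      intro s' hs'
      have e1 := List.mem_zipIdx hs
      have e2 := List.mem_zipIdx hs'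
      have : s' = s := by rw [e1.2.2, e2.2.2]
      rw [this]; exact h
    · exact ⟨fun _ => 0, fun _ => 0, fun s hs => absurd ⟨s, hs⟩ hj⟩
  choose σ o hσ using h1
  obtain ⟨t, ht1, ht2⟩ := exists_seq
    (fun j t => (∀ i, (σ j i + mv t).2 ≠ 0) ∧ ∀ i, (o j i + mv t).2 ≠ 0)
    (fun j => (eventually_all.2 (fun i => snd_translate _)).and
      (eventually_all.2 (fun i => snd_translate _)))
    (fun j j' s t => ∀ a b i, σ j a ≠ σ j b → ¬ Col (σ j a + mv s) (σ j b + mv s) (σ j' i + mv t))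
    (by
      intro j j' s
      refine eventually_all.2 (fun a => eventually_all.2 (fun b => eventually_all.2 (fun i => ?_)))
      by_cases hab : σ j a = σ j b
      · exact Eventually.of_forall (fun t h => absurd hab h)
      · refine (off_translate (σ j a + mv s) (σ j b + mv s) (σ j' i) ?_).mono (fun t ht _ => ht)
        intro h; exact hab (add_right_cancel h))
  set q : ℕ → Pt := fun v => σ (v / 8) ⟨v % 8, Nat.mod_lt _ (by norm_num)⟩ + mv (t (v / 8)) with hq
  have qv : ∀ (j : ℕ) (i : Fin 8), q (vx j i) = σ j i + mv (t j) := by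
    intro j i
    have e : (⟨vx j i % 8, Nat.mod_lt _ (by norm_num)⟩ : Fin 8) = i := by
      ext; exact vx_mod j i
    simp only [hq, e, vx_div]
  have q2 : ∀ v, (q v).2 ≠ 0 := fun v => (ht1 _).1 _
  set P : ℕ → Pt := fun c => if c % 3 = 2 then
    ψ (o ((c - 2) / 3 / 8) ⟨(c - 2) / 3 % 8, Nat.mod_lt _ (by norm_num)⟩ + mv (t ((c - 2) / 3 / 8)))
    else ((D c).1 / (D c).2, 0) with hP
  have PF : ∀ (j : ℕ) (m : Fin 8), P (cF j m) = ψ (o j m + mv (t j)) := by
    intro j m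
    have e : (⟨(cF j m - 2) / 3 % 8, Nat.mod_lt _ (by norm_num)⟩ : Fin 8) = m := by
      ext; exact cF_mod j m
    simp only [hP, cF_mod3, if_true, e, cF_div]
  have PD : ∀ c, c % 3 ≠ 2 → P c = ((D c).1 / (D c).2, 0) := by
    intro c hc
    simp only [hP, if_neg hc]
  have hmem : ∀ e ∈ inst L, ∃ s j, (s, j) ∈ L.zipIdx ∧ e ∈ gadg s j := by
    intro e he
    rw [inst, List.mem_flatMap] at he
    obtain ⟨⟨s, j⟩, h1, h2⟩ := he
    exact ⟨s, j, h1, h2⟩
  -- lines of different gadgets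
  have cross : ∀ {j j' : ℕ}, j < j' → ∀ a b i : Fin 8, σ j a ≠ σ j b →
      ¬ Col (q (vx j a)) (q (vx j b)) (q (vx j' i)) := by
    intro j j' hjj a b i hab
    rw [qv, qv, qv]
    exact ht2 j j' hjj a b i hab
  refine ⟨fun v => ψ (q v), P, ?_, ?_, ?_⟩
  · -- injectivity
    have key : ∀ v w, v ∈ V (inst L) → w ∈ V (inst L) → v / 8 ≤ w / 8 → q v = q w → v = w := by
      rintro v w ⟨e, he, hev⟩ ⟨f, hf, hfw⟩ hle hvw
      obtain ⟨s, j, hs, he⟩ := hmem e he
      obtain ⟨s', j', hs', hf⟩ := hmem f hf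
      obtain ⟨ab, hab, h1, h2, _⟩ := (hσ j s hs).edge j e he
      obtain ⟨cd, hcd, h3, h4, _⟩ := (hσ j' s' hs').edge j' f hf
      have hne : σ j ab.1 ≠ σ j ab.2 := fun h => gadP_ne hab ((hσ j s hs).inj h)
      have hv : ∃ i : Fin 8, v = vx j i := by
        rcases hev with h | h
        · exact ⟨_, h ▸ h1⟩
        · exact ⟨_, h ▸ h2⟩
      have hw : ∃ i : Fin 8, w = vx j' i := by
        rcases hfw with h | h
        · exact ⟨_, h ▸ h3⟩
        · exact ⟨_, h ▸ h4⟩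
      obtain ⟨i', rfl⟩ := hw
      rcases lt_or_ge j j' with hjj | hjj
      · exfalso
        have := cross hjj ab.1 ab.2 i' hne
        rw [← hvw] at this
        rcases hev with h | h
        · rw [← h, h1] at this
          exact this (col_self_left _ _)
        · rw [← h, h2] at this
          exact this (col_self_right _ _)
      · obtain ⟨i, rfl⟩ := hv
        rw [vx_div, vx_div] at hle
        have : j = j' := le_antisymm hle hjj
        subst this
        rw [qv, qv] at hvw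
        rw [(hσ j s hs).inj (add_right_cancel hvw)]
    intro v hv w hw h
    have h' := psi_inj (q2 v) (q2 w) h
    rcases le_total (v / 8) (w / 8) with h1 | h1
    · exact key v w hv hw h1 h'
    · exact (key w v hw hv h1 h'.symm).symm
  · intro e he
    obtain ⟨s, j, hs, he⟩ := hmem e he
    obtain ⟨ab, hab, h1, h2, h3⟩ := (hσ j s hs).edge j e he
    rw [h1, h2]
    rcases h3 with ⟨h3, h4⟩ | ⟨m, h3, h4⟩
    · rw [PD _ h3]
      refine psi_dir (q2 _) (q2 _) (hD _ h3) ?_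
      rw [qv, qv, cr_add]
      exact h4
    · rw [h3, PF, psi_col (q2 _) (q2 _) ((ht1 j).2 m), qv, qv, col_add]
      exact h4
  · intro e he f hf hef
    have hends : ends e ≠ ends f := by
      intro h
      apply hef
      have hn : ((inst L).map ends).Nodup := by rw [inst_eq]; exact instR_nodup L 0
      exact List.inj_on_of_nodup_map hn he hf h
    obtain ⟨s, j, hs, he⟩ := hmem e he
    obtain ⟨s', j', hs', hf⟩ := hmem f hf
    obtain ⟨ab, hab, h1, h2, _⟩ := (hσ j s hs).edge j e he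
    obtain ⟨cd, hcd, h3, h4, _⟩ := (hσ j' s' hs').edge j' f hf
    have hne : σ j ab.1 ≠ σ j ab.2 := fun h => gadP_ne hab ((hσ j s hs).inj h)
    have hne' : σ j' cd.1 ≠ σ j' cd.2 := fun h => gadP_ne hcd ((hσ j' s' hs').inj h)
    rw [h1, h2, h3, h4]
    rw [psi_col (q2 _) (q2 _) (q2 _), psi_col (q2 _) (q2 _) (q2 _)]
    rcases lt_trichotomy j j' with hjj | hjj | hjj
    · rintro ⟨h5, _⟩
      exact cross hjj ab.1 ab.2 cd.1 hne h5
    · subst hjj
      have : s' = s := by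
        have e1 := List.mem_zipIdx hs
        have e2 := List.mem_zipIdx hs'
        rw [e1.2.2, e2.2.2]
      subst this
      rw [qv, qv, qv, qv, col_add, col_add]
      refine (hσ j s' hs).dist ab hab cd hcd ?_
      rintro rfl
      apply hends
      rw [ends, ends, h1, h2, h3, h4]
    · rintro ⟨h5, h6⟩
      refine cross hjj cd.1 cd.2 ab.1 hne' (col_flip ?_ h5 h6)
      rw [qv, qv]; intro h; exact hne (add_right_cancel h)

end Pool.Agent.H621R2.Fd
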