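import Pool.Agent.H621R2.Geom

/-!
Faithful drawings: lines, prisms and quadrilaterals.
-/

set_option autoImplicit false

namespace Pool.Agent.H621R2.Fd

open Pool.Agent.H621R2

theorem mem_line_iff {A B P : Pt} (h : A ≠ B) : P ∈ line[ℝ, A, B] ↔ Col A B P := by
  constructor
  · intro hP
    obtain ⟨r, hr⟩ := mem_affineSpan_pair_iff_exists_lineMap_eq.1 hP
    rw [← hr]
    simp only [Col, cr, AffineMap.lineMap_apply, vsub_eq_sub, vadd_eq_add, Prod.fst_sub,
      Prod.snd_sub, Prod.fst_add, Prod.snd_add, Prod.smul_fst, Prod.smul_snd, smul_eq_mul]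
    ring
  · intro hc
    obtain ⟨s, hs⟩ := exists_param_of_col h hc
    have := AffineMap.lineMap_mem_affineSpan_pair s A B
    rw [AffineMap.lineMap_apply, vsub_eq_sub, vadd_eq_add, add_comm, ← hs] at this
    exact this

theorem line_eq_of_col {A B C D : Pt} (h : A ≠ B) (h' : C ≠ D) (h1 : Col A B C) (h2 : Col A B D) :
    line[ℝ, A, B] = line[ℝ, C, D] :=
  (affineSpan_pair_eq_of_mem_of_mem_of_ne ((mem_line_iff h).2 h1)
    ((mem_line_iff h).2 h2) h').symm

theorem line_ne_of_not_col {A B C D : Pt} (h : A ≠ B) (h1 : ¬ (Col A B C ∧ Col A B D)) :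
    line[ℝ, A, B] ≠ line[ℝ, C, D] := by
  intro he
  apply h1
  constructor
  · rw [← mem_line_iff h, he]
    exact left_mem_affineSpan_pair ℝ C D
  · rw [← mem_line_iff h, he]
    exact right_mem_affineSpan_pair ℝ C D

theorem col_self_left (A B : Pt) : Col A B A := by
  simp [Col, cr]

theorem col_self_right (A B : Pt) : Col A B B := by
  simp only [Col, cr]; ring

theorem col_swap {A B C : Pt} : Col A B C ↔ Col B A C := by
  simp only [Col, cr, Prod.fst_sub, Prod.snd_sub]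
  constructor <;> intro h <;> linarith

theorem col_rot {A B C : Pt} : Col A B C ↔ Col B C A := by
  simp only [Col, cr, Prod.fst_sub, Prod.snd_sub]
  constructor <;> intro h <;> linarith

theorem col_swap' {A B C : Pt} : Col A B C ↔ Col A C B := by
  simp only [Col, cr, Prod.fst_sub, Prod.snd_sub]
  constructor <;> intro h <;> linarith

/-- two points on a line through `A`, `B` -/
theorem col_trans {A B C D : Pt} (h : A ≠ B) (h1 : Col A B C) (h2 : Col A B D) : Col A C D := by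
  obtain ⟨s, hs⟩ := exists_param_of_col h h1
  obtain ⟨t, ht⟩ := exists_param_of_col h h2
  rw [hs, ht]
  simp only [Col, cr, Prod.fst_sub, Prod.snd_sub, Prod.fst_add, Prod.snd_add, Prod.smul_fst,
    Prod.smul_snd, smul_eq_mul]
  ring

/-- The intersection point of a side and its image. -/
theorem side {O b c X : Pt} {β γ : ℝ} (hκ : ¬ Col O b c) (h1 : Col b c X)
    (h2 : Col (O + β • (b - O)) (O + γ • (c - O)) X) :
    (β - γ) • (X - O) = (β * (1 - γ)) • (b - O) - (γ * (1 - β)) • (c - O) := by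
  obtain ⟨B, hB⟩ : ∃ B, B = b - O := ⟨_, rfl⟩
  obtain ⟨C, hC⟩ : ∃ C, C = c - O := ⟨_, rfl⟩
  obtain ⟨Y, hY⟩ : ∃ Y, Y = X - O := ⟨_, rfl⟩
  have eb : b = O + B := by rw [hB]; abel
  have ec : c = O + C := by rw [hC]; abel
  have eX : X = O + Y := by rw [hY]; abel
  rw [← hB, ← hC, ← hY]
  rw [← hB, ← hC, eX] at h2
  rw [eb, ec, eX] at h1
  rw [eb, ec] at hκ
  simp only [Col, cr, Prod.fst_sub, Prod.snd_sub, Prod.fst_add, Prod.snd_add, Prod.smul_fst,
    Prod.smul_snd, smul_eq_mul] at h1 h2 hκ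
  have hκ' : B.1 * C.2 - B.2 * C.1 ≠ 0 := by
    intro h; apply hκ; linarith
  have k1 : (B.1 * C.2 - B.2 * C.1) * ((β - γ) * Y.1 - ((β * (1 - γ)) * B.1 - (γ * (1 - β)) * C.1)) = 0 := by
    linear_combination (γ * C.1 - β * B.1) * h1 + (B.1 - C.1) * h2
  have k2 : (B.1 * C.2 - B.2 * C.1) * ((β - γ) * Y.2 - ((β * (1 - γ)) * B.2 - (γ * (1 - β)) * C.2)) = 0 := by
    linear_combination (γ * C.2 - β * B.2) * h1 + (B.2 - C.2) * h2
  have k1' := (mul_eq_zero.1 k1).resolve_left hκ'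
  have k2' := (mul_eq_zero.1 k2).resolve_left hκ'
  ext
  · simp only [Prod.smul_fst, Prod.fst_sub, smul_eq_mul]
    linarith
  · simp only [Prod.smul_snd, Prod.snd_sub, smul_eq_mul]
    linarith

theorem ne_of_not_col {A B C : Pt} (h : ¬ Col A B C) : A ≠ B ∧ A ≠ C ∧ B ≠ C := by
  refine ⟨?_, ?_, ?_⟩ <;> rintro rfl <;> apply h <;> simp only [Col, cr] <;> ring_nf <;> simp

/-- parameters with respect to the centre -/
theorem centre_param {O a a' : Pt} (hO : O ≠ a) (h : Col a a' O) (ha : a ≠ a') (ha' : O ≠ a') :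
    ∃ α : ℝ, a' = O + α • (a - O) ∧ α ≠ 0 ∧ α ≠ 1 := by
  obtain ⟨α, hα⟩ := exists_param_of_col hO (col_rot.1 (col_rot.1 h))
  refine ⟨α, hα, ?_, ?_⟩
  · rintro rfl
    apply ha'
    rw [hα]; simp
  · rintro rfl
    apply ha
    rw [hα]; simp

theorem weight_ne {O b c X : Pt} {β γ : ℝ} (hκ : ¬ Col O b c) (hβ0 : β ≠ 0) (hβ1 : β ≠ 1)
    (h : (β - γ) • (X - O) = (β * (1 - γ)) • (b - O) - (γ * (1 - β)) • (c - O)) : β ≠ γ := by
  rintro rfl
  have hb : β * (1 - β) ≠ 0 := mul_ne_zero hβ0 (sub_ne_zero.2 (Ne.symm hβ1))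
  have h1 := congrArg Prod.fst h
  have h2 := congrArg Prod.snd h
  simp only [Prod.smul_fst, Prod.fst_sub, Prod.smul_snd, Prod.snd_sub, smul_eq_mul] at h1 h2
  apply hκ
  have e1 : b.1 = c.1 := by
    have : (β * (1 - β)) * (b.1 - c.1) = 0 := by linarith
    linarith [(mul_eq_zero.1 this).resolve_left hb]
  have e2 : b.2 = c.2 := by
    have : (β * (1 - β)) * (b.2 - c.2) = 0 := by linarith
    linarith [(mul_eq_zero.1 this).resolve_left hb]
  simp only [Col, cr, Prod.fst_sub, Prod.snd_sub, e1, e2]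
  ring

/-- The prism: all the conditions come from the distinctness of the lines. -/
theorem prism {a b c a' b' c' X Y Z O : Pt}
    (hX : Col b c X) (hX' : Col b' c' X) (hY : Col c a Y) (hY' : Col c' a' Y)
    (hZ : Col a b Z) (hZ' : Col a' b' Z)
    (hOa : Col a a' O) (hOb : Col b b' O) (hOc : Col c c' O)
    (nabc : ¬ Col a b c) (naba : ¬ Col a b a') (naca : ¬ Col a c a')
    (nbab : ¬ Col b a b') (nbcb : ¬ Col b c b') (ncac : ¬ Col c a c') (ncbc : ¬ Col c b c')
    (naca' : ¬ Col a' c' a) (nbab' : ¬ Col b' a' b) (nbcb' : ¬ Col b' c' b)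
    (ncbc' : ¬ Col c' b' c) :
    X ≠ Y ∧ X ≠ Z ∧ Y ≠ Z ∧ Col X Y Z := by
  obtain ⟨hab, hac, hbc⟩ := ne_of_not_col nabc
  have haa := (ne_of_not_col naba).2.1
  have hbb := (ne_of_not_col nbab).2.1
  have hcc := (ne_of_not_col ncac).2.1
  have Oa : O ≠ a := by
    rintro rfl; exact nbab (col_swap'.1 hOb)
  have Ob : O ≠ b := by
    rintro rfl; exact naba (col_swap'.1 hOa)
  have Oc : O ≠ c := by
    rintro rfl; exact naca (col_swap'.1 hOa)
  have Oa' : O ≠ a' := by
    rintro rfl; exact nbab' (col_swap'.1 (col_swap.1 hOb))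
  have Ob' : O ≠ b' := by
    rintro rfl; exact ncbc' (col_swap'.1 (col_swap.1 hOc))
  have Oc' : O ≠ c' := by
    rintro rfl; exact nbcb' (col_swap'.1 (col_swap.1 hOb))
  obtain ⟨α, ea, α0, α1⟩ := centre_param Oa hOa haa Oa'
  obtain ⟨β, eb, β0, β1⟩ := centre_param Ob hOb hbb Ob'
  obtain ⟨γ, ec, γ0, γ1⟩ := centre_param Oc hOc hcc Oc'
  have nO : ∀ {u v u' : Pt}, O ≠ u → Col u u' O → ¬ Col u v u' → ¬ Col O u v := by
    intro u v u' hu h1 h2 h3
    exact h2 (col_trans hu.symm (col_swap.1 h3) (col_swap'.1 h1))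
  have kbc : ¬ Col O b c := nO Ob hOb nbcb
  have kca : ¬ Col O c a := nO Oc hOc ncac
  have kab : ¬ Col O a b := nO Oa hOa naba
  rw [eb, ec] at hX'
  rw [ec, ea] at hY'
  rw [ea, eb] at hZ'
  have sX := side kbc hX hX'
  have sY := side kca hY hY'
  have sZ := side kab hZ hZ'
  have wX := weight_ne kbc β0 β1 sX
  have wY := weight_ne kca γ0 γ1 sY
  have wZ := weight_ne kab α0 α1 sZ
  have hXY : X ≠ Y := by
    rintro rfl
    -- `X` is on `bc` and `ca`
    have hXc : X = c := by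
      by_contra hne
      apply nabc
      have h1 : Col c X b := col_rot.1 hX
      have h2 : Col c X a := col_swap'.1 hY
      have := col_trans (Ne.symm hne) h1 h2
      exact col_swap.1 (col_rot.1 this)
    subst hXc
    rw [← eb, ← ec] at hX'
    exact ncbc' (col_swap.1 hX')
  have hXZ : X ≠ Z := by
    rintro rfl
    have hXb : X = b := by
      by_contra hne
      apply nabc
      have h1 : Col b X c := col_swap'.1 hX
      have h2 : Col b X a := col_swap'.1 (col_swap.1 hZ)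
      have := col_trans (Ne.symm hne) h1 h2
      exact col_rot.1 (col_rot.1 this)
    subst hXb
    rw [← eb, ← ec] at hX'
    exact nbcb' hX'
  have hYZ : Y ≠ Z := by
    rintro rfl
    have hYa : Y = a := by
      by_contra hne
      apply nabc
      have h1 : Col a Y b := col_swap'.1 hZ
      have h2 : Col a Y c := col_rot.1 hY
      exact col_trans (Ne.symm hne) h1 h2
    subst hYa
    rw [← ea, ← ec] at hY'
    exact naca' (col_swap.1 hY')
  refine ⟨hXY, hXZ, hYZ, ?_⟩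
  have w2 : (1 - β) * (γ - α) ≠ 0 := mul_ne_zero (sub_ne_zero.2 (Ne.symm β1)) (sub_ne_zero.2 wY)
  have x1 := congrArg Prod.fst sX
  have x2 := congrArg Prod.snd sX
  have y1 := congrArg Prod.fst sY
  have y2 := congrArg Prod.snd sY
  have z1 := congrArg Prod.fst sZ
  have z2 := congrArg Prod.snd sZ
  simp only [Prod.smul_fst, Prod.fst_sub, Prod.smul_snd, Prod.snd_sub, smul_eq_mul]
    at x1 x2 y1 y2 z1 z2
  have q1 : (1 - β) * (γ - α) * (Y.1 - X.1) + (1 - γ) * (α - β) * (Z.1 - X.1) = 0 := by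
    linear_combination (1 - α) * x1 + (1 - β) * y1 + (1 - γ) * z1
  have q2 : (1 - β) * (γ - α) * (Y.2 - X.2) + (1 - γ) * (α - β) * (Z.2 - X.2) = 0 := by
    linear_combination (1 - α) * x2 + (1 - β) * y2 + (1 - γ) * z2
  have q : ((1 - β) * (γ - α)) * cr (Y - X) (Z - X) = 0 := by
    simp only [cr, Prod.fst_sub, Prod.snd_sub]
    linear_combination (Z.2 - X.2) * q1 - (Z.1 - X.1) * q2
  exact (mul_eq_zero.1 q).resolve_left w2

end Pool.Agent.H621R2.Fd
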