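import Pool.Agent.H621R2.Lvl2

/-!
Faithful drawings: the edge-coloured graph of a system of gates.
-/

set_option autoImplicit false

namespace Pool.Agent.H621R2.Fd

open Pool.Agent.H621R2

/-- An edge-coloured graph: the list of its edges `(u, v, c)` (end vertices and colour). -/
abbrev CG : Type := List (ℕ × ℕ × ℕ)

/-- The colour of a node. -/
def cN (n : ℕ) : ℕ := 3 * n

/-- The auxiliary colour of the `k`-th gate. -/
def cW (k : ℕ) : ℕ := 3 * k + 1

/-- Private colours of the `j`-th gadget. -/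
def cF (j m : ℕ) : ℕ := 3 * (8 * j + m) + 2

/-- The `i`-th vertex of the `j`-th gadget. -/
def vx (j i : ℕ) : ℕ := 8 * j + i

/-- A prism (with three more edges). -/
def prE (X Y Z j : ℕ) : CG :=
  [(vx j 1, vx j 2, X), (vx j 4, vx j 5, X), (vx j 2, vx j 0, Y), (vx j 5, vx j 3, Y),
    (vx j 0, vx j 1, Z), (vx j 3, vx j 4, Z), (vx j 0, vx j 3, cF j 0), (vx j 1, vx j 4, cF j 0),
    (vx j 2, vx j 5, cF j 0), (vx j 0, vx j 4, cF j 1), (vx j 1, vx j 5, cF j 2),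
    (vx j 2, vx j 3, cF j 3)]

/-- Two complete quadrilaterals joined by a perfect matching. -/
def quE (E A B C D j : ℕ) : CG :=
  [(vx j 0, vx j 1, E), (vx j 2, vx j 3, 3), (vx j 0, vx j 2, A), (vx j 1, vx j 3, B),
    (vx j 0, vx j 3, C), (vx j 1, vx j 2, D),
    (vx j 4, vx j 5, E), (vx j 6, vx j 7, 3), (vx j 4, vx j 6, A), (vx j 5, vx j 7, B),
    (vx j 4, vx j 7, C), (vx j 5, vx j 6, D),
    (vx j 0, vx j 4, cF j 0), (vx j 1, vx j 5, cF j 1), (vx j 2, vx j 6, cF j 2),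
    (vx j 3, vx j 7, cF j 3)]

/-- A gadget `(0, X, Y, Z, _, _)` or `(1, E, A, B, C, D)`. -/
abbrev Spec := ℕ × ℕ × ℕ × ℕ × ℕ × ℕ

def gadg (s : Spec) (j : ℕ) : CG :=
  if s.1 = 0 then prE s.2.1 s.2.2.1 s.2.2.2.1 j else
    quE s.2.1 s.2.2.1 s.2.2.2.1 s.2.2.2.2.1 s.2.2.2.2.2 j

/-- The colours are appropriate. -/
def WfS (s : Spec) : Prop :=
  s.2.1 % 3 ≠ 2 ∧ s.2.2.1 % 3 ≠ 2 ∧ s.2.2.2.1 % 3 ≠ 2 ∧ s.2.2.2.2.1 % 3 ≠ 2 ∧
    s.2.2.2.2.2 % 3 ≠ 2 ∧
  (s.1 = 0 → s.2.1 ≠ s.2.2.1 ∧ s.2.1 ≠ s.2.2.2.1 ∧ s.2.2.1 ≠ s.2.2.2.1) ∧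
  (s.1 ≠ 0 → s.2.1 ≠ s.2.2.1 ∧ s.2.1 ≠ s.2.2.2.2.1 ∧ s.2.2.1 ≠ s.2.2.2.2.1 ∧
    s.2.1 ≠ s.2.2.2.1 ∧ s.2.1 ≠ s.2.2.2.2.2 ∧ s.2.2.2.1 ≠ s.2.2.2.2.2 ∧
    s.2.2.1 ≠ 3 ∧ s.2.2.2.2.2 ≠ 3 ∧ s.2.2.1 ≠ s.2.2.2.2.2 ∧
    s.2.2.2.1 ≠ 3 ∧ s.2.2.2.2.1 ≠ 3 ∧ s.2.2.2.1 ≠ s.2.2.2.2.1)

/-- The graph of a list of gadgets. -/
def inst (L : List Spec) : CG := L.zipIdx.flatMap (fun q => gadg q.1 q.2)

/-- The gadgets of a gate. -/
def spG (g : Gt) (k : ℕ) : List Spec :=
  [(0, 3, 0, cW k, 0, 0), (0, 3, cW k, cN g.2.1, 0, 0), (0, 3, cW k, cN g.2.2.1, 0, 0),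
    (0, 3, cW k, cN g.2.2.2.1, 0, 0), (0, 3, cW k, cN g.2.2.2.2, 0, 0)] ++
  ((if g.1 = 1 then [] else [(0, 3, cW k, cN g.1, 0, 0)]) ++
  [(0, cN g.1, cN g.2.1, cN g.2.2.2.1, 0, 0), (0, cN g.1, cN g.2.2.1, cN g.2.2.2.2, 0, 0),
    (0, 3, cN g.2.1, cN g.2.2.2.2, 0, 0), (0, 3, cN g.2.2.1, cN g.2.2.2.1, 0, 0),
    (1, cN g.1, cN g.2.1, cN g.2.2.1, cN g.2.2.2.1, cN g.2.2.2.2)])

/-- All gadgets. -/
def specs (G : List Gt) : List Spec :=
  (0, 3, 0, 6, 0, 0) :: G.zipIdx.flatMap (fun q => spG q.1 q.2)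

/-- The colour names of a gate are different whenever necessary. -/
def WfG (g : Gt) : Prop :=
  g.2.1 ≠ 1 ∧ g.2.2.1 ≠ 1 ∧ g.2.2.2.1 ≠ 1 ∧ g.2.2.2.2 ≠ 1 ∧
  g.1 ≠ g.2.1 ∧ g.1 ≠ g.2.2.1 ∧ g.1 ≠ g.2.2.2.1 ∧ g.1 ≠ g.2.2.2.2 ∧
  g.2.1 ≠ g.2.2.2.1 ∧ g.2.1 ≠ g.2.2.2.2 ∧ g.2.2.1 ≠ g.2.2.2.1 ∧ g.2.2.1 ≠ g.2.2.2.2

theorem wfG_gatesOf {S : List NPC.ER.Con} {g : Gt} (hg : g ∈ gatesOf S) : WfG g := by
  rw [gatesOf, List.mem_flatMap] at hg
  obtain ⟨⟨c, k⟩, _, hg⟩ := hg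
  rw [conG] at hg
  split_ifs at hg with h1 h2
  · simp only [List.mem_cons, List.not_mem_nil, or_false] at hg
    rcases hg with rfl | rfl <;> simp only [WfG, fn, nv] <;> omega
  · simp only [List.mem_cons, List.not_mem_nil, or_false] at hg
    rcases hg with rfl | rfl <;> simp only [WfG, fn, nv] <;> omega
  · simp only [List.mem_cons, List.not_mem_nil, or_false] at hg
    rcases hg with rfl | rfl | rfl | rfl | rfl <;> simp only [WfG, fn, nv] <;> omega

theorem wfS_specs {G : List Gt} (hG : ∀ g ∈ G, WfG g) {s : Spec} (hs : s ∈ specs G) : WfS s := by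
  rw [specs, List.mem_cons] at hs
  rcases hs with rfl | hs
  · simp [WfS]
  · rw [List.mem_flatMap] at hs
    obtain ⟨⟨g, k⟩, hgk, hs⟩ := hs
    have hg := hG g (List.fst_mem_of_mem_zipIdx hgk)
    simp only [WfG] at hg
    rw [spG, List.mem_append, List.mem_append] at hs
    rcases hs with hs | hs | hs
    · simp only [List.mem_cons, List.not_mem_nil, or_false] at hs
      rcases hs with rfl | rfl | rfl | rfl | rfl <;> simp only [WfS, cN, cW] <;> omega
    · split_ifs at hs with he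
      · simp at hs
      · simp only [List.mem_cons, List.not_mem_nil, or_false] at hs
        rcases hs with rfl
        simp only at he
        simp only [WfS, cN, cW]
        omega
    · simp only [List.mem_cons, List.not_mem_nil, or_false] at hs
      rcases hs with rfl | rfl | rfl | rfl | rfl <;> simp only [WfS, cN, cW] <;> omega

/-- recursive form -/
def instR : List Spec → ℕ → CG
  | [], _ => []
  | s :: L, k => gadg s k ++ instR L (k + 1)

theorem instR_eq : ∀ (L : List Spec) (k : ℕ),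
    (L.zipIdx k).flatMap (fun q => gadg q.1 q.2) = instR L k
  | [], k => by simp [instR]
  | s :: L, k => by
    rw [List.zipIdx_cons, List.flatMap_cons, instR_eq L (k + 1), instR]

theorem inst_eq (L : List Spec) : inst L = instR L 0 := instR_eq L 0

theorem gadg_range {s : Spec} {j : ℕ} {e : ℕ × ℕ × ℕ} (he : e ∈ gadg s j) :
    8 * j ≤ e.1 ∧ e.1 < 8 * (j + 1) ∧ 8 * j ≤ e.2.1 ∧ e.2.1 < 8 * (j + 1) ∧ e.1 ≠ e.2.1 := by
  rw [gadg] at he
  split_ifs at he
  · simp only [prE, List.mem_cons, List.not_mem_nil, or_false] at he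
    rcases he with rfl | rfl | rfl | rfl | rfl | rfl | rfl | rfl | rfl | rfl | rfl | rfl <;>
      simp only [vx] <;> omega
  · simp only [quE, List.mem_cons, List.not_mem_nil, or_false] at he
    rcases he with rfl | rfl | rfl | rfl | rfl | rfl | rfl | rfl | rfl | rfl | rfl | rfl | rfl |
      rfl | rfl | rfl <;> simp only [vx] <;> omega

/-- the end vertices of an edge -/
def ends (e : ℕ × ℕ × ℕ) : Sym2 ℕ := s(e.1, e.2.1)

/-- end vertices of the edges of a prism, locally -/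
def prL : List (Sym2 (Fin 8)) :=
  [s(1, 2), s(4, 5), s(2, 0), s(5, 3), s(0, 1), s(3, 4), s(0, 3), s(1, 4), s(2, 5), s(0, 4),
    s(1, 5), s(2, 3)]

/-- end vertices of the edges of a double quadrilateral, locally -/
def quL : List (Sym2 (Fin 8)) :=
  [s(0, 1), s(2, 3), s(0, 2), s(1, 3), s(0, 3), s(1, 2), s(4, 5), s(6, 7), s(4, 6), s(5, 7),
    s(4, 7), s(5, 6), s(0, 4), s(1, 5), s(2, 6), s(3, 7)]

theorem prL_nodup : prL.Nodup := by decide

theorem quL_nodup : quL.Nodup := by decide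

theorem vx_inj (j : ℕ) : Function.Injective (fun i : Fin 8 => vx j i) := by
  intro a b h
  simp only [vx] at h
  omega

theorem prE_ends (X Y Z j : ℕ) :
    (prE X Y Z j).map ends = prL.map (Sym2.map (fun i : Fin 8 => vx j i)) := by
  simp [prE, prL, ends, vx]

theorem quE_ends (E A B C D j : ℕ) :
    (quE E A B C D j).map ends = quL.map (Sym2.map (fun i : Fin 8 => vx j i)) := by
  simp [quE, quL, ends, vx]

theorem gadg_nodup (s : Spec) (j : ℕ) : ((gadg s j).map ends).Nodup := by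
  rw [gadg]
  split_ifs
  · rw [prE_ends]
    exact prL_nodup.map (Sym2.map.injective (vx_inj j))
  · rw [quE_ends]
    exact quL_nodup.map (Sym2.map.injective (vx_inj j))

/-- number of edges at a vertex -/
def deg (G : CG) (v : ℕ) : ℕ := (G.filter (fun e => e.1 = v ∨ e.2.1 = v)).length

theorem deg_append (G H : CG) (v : ℕ) : deg (G ++ H) v = deg G v + deg H v := by
  simp [deg]

theorem deg_eq_zero {G : CG} {v : ℕ} (h : ∀ e ∈ G, e.1 ≠ v ∧ e.2.1 ≠ v) : deg G v = 0 := by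
  rw [deg, List.length_eq_zero_iff, List.filter_eq_nil_iff]
  intro e he
  have := h e he
  simp [this.1, this.2]

theorem gadg_deg {s : Spec} {j v : ℕ} (hv : ∃ e ∈ gadg s j, e.1 = v ∨ e.2.1 = v) :
    deg (gadg s j) v = 4 := by
  obtain ⟨e, he, hev⟩ := hv
  rw [gadg] at he ⊢
  split_ifs at he ⊢
  · have : v = vx j 0 ∨ v = vx j 1 ∨ v = vx j 2 ∨ v = vx j 3 ∨ v = vx j 4 ∨ v = vx j 5 := by
      simp only [prE, List.mem_cons, List.not_mem_nil, or_false] at he
      rcases he with rfl | rfl | rfl | rfl | rfl | rfl | rfl | rfl | rfl | rfl | rfl | rfl <;>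
        simp only at hev <;> rcases hev with rfl | rfl <;> simp
    rcases this with rfl | rfl | rfl | rfl | rfl | rfl <;> simp [deg, prE, vx]
  · have : v = vx j 0 ∨ v = vx j 1 ∨ v = vx j 2 ∨ v = vx j 3 ∨ v = vx j 4 ∨ v = vx j 5 ∨
        v = vx j 6 ∨ v = vx j 7 := by
      simp only [quE, List.mem_cons, List.not_mem_nil, or_false] at he
      rcases he with rfl | rfl | rfl | rfl | rfl | rfl | rfl | rfl | rfl | rfl | rfl | rfl | rfl |
        rfl | rfl | rfl <;>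
        simp only at hev <;> rcases hev with rfl | rfl <;> simp
    rcases this with rfl | rfl | rfl | rfl | rfl | rfl | rfl | rfl <;>
      simp [deg, quE, vx]

theorem ne_cF {x j m : ℕ} (h : x % 3 ≠ 2) : x ≠ cF j m := by
  rintro rfl
  apply h
  simp only [cF]
  omega

theorem cF_ne {j m m' : ℕ} (h : m ≠ m') : cF j m ≠ cF j m' := by
  intro he
  apply h
  simp only [cF] at he
  omega

theorem prE_proper {X Y Z j : ℕ} (w1 : X % 3 ≠ 2) (w2 : Y % 3 ≠ 2) (w3 : Z % 3 ≠ 2)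
    (w8 : X ≠ Y) (w9 : X ≠ Z) (w10 : Y ≠ Z) {e f : ℕ × ℕ × ℕ} (he : e ∈ prE X Y Z j)
    (hf : f ∈ prE X Y Z j) (hne : e ≠ f)
    (hv : e.1 = f.1 ∨ e.1 = f.2.1 ∨ e.2.1 = f.1 ∨ e.2.1 = f.2.1) : e.2.2 ≠ f.2.2 := by
  simp only [prE, List.mem_cons, List.not_mem_nil, or_false] at he hf
  rcases he with rfl | rfl | rfl | rfl | rfl | rfl | rfl | rfl | rfl | rfl | rfl | rfl <;>
  rcases hf with rfl | rfl | rfl | rfl | rfl | rfl | rfl | rfl | rfl | rfl | rfl | rfl <;>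
  first
    | exact absurd rfl hne
    | exact w8
    | exact w9
    | exact w10
    | exact w8.symm
    | exact w9.symm
    | exact w10.symm
    | exact ne_cF w1
    | exact ne_cF w2
    | exact ne_cF w3
    | exact (ne_cF w1).symm
    | exact (ne_cF w2).symm
    | exact (ne_cF w3).symm
    | exact cF_ne (by decide)
    | (clear hne w1 w2 w3 w8 w9 w10; exfalso; simp only [vx] at hv; omega)

theorem quE_proper {E A B C D j : ℕ} (m1 : E % 3 ≠ 2) (m2 : A % 3 ≠ 2) (m3 : B % 3 ≠ 2)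
    (m4 : C % 3 ≠ 2) (m5 : D % 3 ≠ 2) (m6 : 3 % 3 ≠ 2)
    (w1 : E ≠ A) (w2 : E ≠ C) (w3 : A ≠ C) (w4 : E ≠ B) (w5 : E ≠ D) (w6 : B ≠ D)
    (w7 : A ≠ 3) (w8 : D ≠ 3) (w9 : A ≠ D) (w10 : B ≠ 3) (w11 : C ≠ 3) (w12 : B ≠ C)
    {e f : ℕ × ℕ × ℕ} (he : e ∈ quE E A B C D j)
    (hf : f ∈ quE E A B C D j) (hne : e ≠ f)
    (hv : e.1 = f.1 ∨ e.1 = f.2.1 ∨ e.2.1 = f.1 ∨ e.2.1 = f.2.1) : e.2.2 ≠ f.2.2 := by
  simp only [quE, List.mem_cons, List.not_mem_nil, or_false] at he hf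
  rcases he with rfl | rfl | rfl | rfl | rfl | rfl | rfl | rfl | rfl | rfl | rfl | rfl | rfl |
      rfl | rfl | rfl <;>
  rcases hf with rfl | rfl | rfl | rfl | rfl | rfl | rfl | rfl | rfl | rfl | rfl | rfl | rfl |
      rfl | rfl | rfl <;>
  first
    | exact absurd rfl hne
    | exact w1 | exact w2 | exact w3 | exact w4 | exact w5 | exact w6
    | exact w7 | exact w8 | exact w9 | exact w10 | exact w11 | exact w12
    | exact w1.symm | exact w2.symm | exact w3.symm | exact w4.symm | exact w5.symm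
    | exact w6.symm
    | exact w7.symm | exact w8.symm | exact w9.symm | exact w10.symm | exact w11.symm
    | exact w12.symm
    | exact ne_cF m1 | exact ne_cF m2 | exact ne_cF m3 | exact ne_cF m4 | exact ne_cF m5
    | exact ne_cF m6
    | exact (ne_cF m1).symm | exact (ne_cF m2).symm | exact (ne_cF m3).symm
    | exact (ne_cF m4).symm | exact (ne_cF m5).symm | exact (ne_cF m6).symm
    | exact cF_ne (by decide)
    | (clear hne m1 m2 m3 m4 m5 m6 w1 w2 w3 w4 w5 w6 w7 w8 w9 w10 w11 w12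
       exfalso; simp only [vx] at hv; omega)

theorem gadg_proper {s : Spec} (hs : WfS s) {j : ℕ} {e f : ℕ × ℕ × ℕ} (he : e ∈ gadg s j)
    (hf : f ∈ gadg s j) (hne : e ≠ f)
    (hv : e.1 = f.1 ∨ e.1 = f.2.1 ∨ e.2.1 = f.1 ∨ e.2.1 = f.2.1) : e.2.2 ≠ f.2.2 := by
  obtain ⟨w1, w2, w3, w4, w5, w6, w7⟩ := hs
  rw [gadg] at he hf
  by_cases ht : s.1 = 0
  · rw [if_pos ht] at he hf
    obtain ⟨w8, w9, w10⟩ := w6 ht
    exact prE_proper w1 w2 w3 w8 w9 w10 he hf hne hv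
  · rw [if_neg ht] at he hf
    obtain ⟨u1, u2, u3, u4, u5, u6, u7, u8, u9, u10, u11, u12⟩ := w7 ht
    exact quE_proper w1 w2 w3 w4 w5 (by decide) u1 u2 u3 u4 u5 u6 u7 u8 u9 u10 u11 u12 he hf hne hv

theorem mem_instR {L : List Spec} : ∀ {k : ℕ} {e : ℕ × ℕ × ℕ}, e ∈ instR L k → 8 * k ≤ e.1 ∧
    8 * k ≤ e.2.1 := by
  induction L with
  | nil => intro k e he; simp [instR] at he
  | cons s L ih =>
    intro k e he
    rw [instR, List.mem_append] at he
    rcases he with he | he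
    · have := gadg_range he
      omega
    · have := ih he
      omega

theorem instR_loopless {L : List Spec} : ∀ {k : ℕ} {e : ℕ × ℕ × ℕ}, e ∈ instR L k →
    e.1 ≠ e.2.1 := by
  induction L with
  | nil => intro k e he; simp [instR] at he
  | cons s L ih =>
    intro k e he
    rw [instR, List.mem_append] at he
    rcases he with he | he
    · exact (gadg_range he).2.2.2.2
    · exact ih he

theorem instR_nodup (L : List Spec) : ∀ (k : ℕ), ((instR L k).map ends).Nodup := by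
  induction L with
  | nil => intro k; simp [instR]
  | cons s L ih =>
    intro k
    rw [instR, List.map_append, List.nodup_append]
    refine ⟨gadg_nodup s k, ih (k + 1), ?_⟩
    intro x hx y hy hxy
    rw [List.mem_map] at hx hy
    obtain ⟨e, he, rfl⟩ := hx
    obtain ⟨f, hf, rfl⟩ := hy
    have h1 := gadg_range he
    have h2 := mem_instR hf
    rw [ends, ends, Sym2.eq_iff] at hxy
    omega

theorem instR_proper {L : List Spec} (hL : ∀ s ∈ L, WfS s) : ∀ {k : ℕ} {e f : ℕ × ℕ × ℕ},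
    e ∈ instR L k → f ∈ instR L k → e ≠ f →
    (e.1 = f.1 ∨ e.1 = f.2.1 ∨ e.2.1 = f.1 ∨ e.2.1 = f.2.1) → e.2.2 ≠ f.2.2 := by
  induction L with
  | nil => intro k e f he; simp [instR] at he
  | cons s L ih =>
    intro k e f he hf hne hv
    rw [instR, List.mem_append] at he hf
    rcases he with he | he <;> rcases hf with hf | hf
    · exact gadg_proper (hL s (by simp)) he hf hne hv
    · have h1 := gadg_range he
      have h2 := mem_instR hf
      omega
    · have h1 := gadg_range hf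
      have h2 := mem_instR he
      omega
    · exact ih (fun s hs => hL s (by simp [hs])) he hf hne hv

theorem instR_deg {L : List Spec} : ∀ {k v : ℕ}, (∃ e ∈ instR L k, e.1 = v ∨ e.2.1 = v) →
    deg (instR L k) v = 4 := by
  induction L with
  | nil => rintro k v ⟨e, he, _⟩; simp [instR] at he
  | cons s L ih =>
    rintro k v ⟨e, he, hv⟩
    rw [instR, deg_append]
    rw [instR, List.mem_append] at he
    rcases he with he | he
    · rw [gadg_deg ⟨e, he, hv⟩, deg_eq_zero]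
      intro f hf
      have h1 := gadg_range he
      have h2 := mem_instR hf
      omega
    · rw [ih ⟨e, he, hv⟩, deg_eq_zero]
      intro f hf
      have h1 := gadg_range hf
      have h2 := mem_instR he
      omega

end Pool.Agent.H621R2.Fd
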