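import Pool.Agent.H621R2.Fd.Shapes

/-!
Faithful drawings: completeness of the reduction.
-/

set_option autoImplicit false

namespace Pool.Agent.H621R2.Fd

open Pool.Agent.H621R2 Filter

theorem exists_shift (f : ℕ → ℝ) : ∃ t : ℝ, ∀ n, f n + t ≠ 0 := by
  by_contra h
  push Not at h
  apply Cardinal.not_countable_real
  have : (Set.univ : Set ℝ) ⊆ Set.range (fun n => - f n) := by
    intro t _
    obtain ⟨n, hn⟩ := h t
    exact ⟨n, by simp only; linarith⟩
  exact (Set.countable_range _).mono this

/-- slope directions -/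
noncomputable def Dr (v w : ℕ → ℝ) (t : ℝ) (c : ℕ) : Pt :=
  if c = 3 then (0, 1) else (1, (if c % 3 = 0 then v (c / 3) else w (c / 3)) + t)

theorem Dr_three (v w : ℕ → ℝ) (t : ℝ) : Dr v w t 3 = (0, 1) := by simp [Dr]

theorem Dr_N (v w : ℕ → ℝ) (t : ℝ) {n : ℕ} (hn : n ≠ 1) : Dr v w t (cN n) = (1, v n + t) := by
  have h1 : cN n ≠ 3 := by simp only [cN]; omega
  have h2 : cN n % 3 = 0 := by simp only [cN]; omega
  have h3 : cN n / 3 = n := by simp only [cN]; omega
  rw [Dr, if_neg h1, if_pos h2, h3]

theorem Dr_N1 (v w : ℕ → ℝ) (t : ℝ) : Dr v w t (cN 1) = (0, 1) := by simp [Dr, cN]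

theorem Dr_W (v w : ℕ → ℝ) (t : ℝ) (k : ℕ) : Dr v w t (cW k) = (1, w k + t) := by
  have h1 : cW k ≠ 3 := by simp only [cW]; omega
  have h2 : cW k % 3 ≠ 0 := by simp only [cW]; omega
  have h3 : cW k / 3 = k := by simp only [cW]; omega
  rw [Dr, if_neg h1, if_neg h2, h3]

theorem cr_inf (x : ℝ) : cr (0, 1) (1, x) ≠ 0 := by simp [cr]

theorem cr_fin {x y : ℝ} (h : x ≠ y) (t : ℝ) : cr (1, x + t) (1, y + t) ≠ 0 := by
  simp only [cr]
  intro h0
  apply h
  linarith

theorem cN_mod (n : ℕ) : cN n % 3 ≠ 2 := by simp only [cN]; omega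

theorem cW_mod (n : ℕ) : cW n % 3 ≠ 2 := by simp only [cW]; omega

theorem complete {G : List Gt} {val : ℕ → ℝ} (h0 : val 0 = 0) (h2 : val 2 = 1)
    (hG : ∀ g ∈ G, CompGate val g) : ∃ p P, FD (inst (specs G)) p P := by
  have hw : ∀ k : ℕ, ∃ w : ℝ, ∀ g : Gt, (g, k) ∈ G.zipIdx → w ≠ 0 ∧ w ≠ val g.1 ∧ w ≠ val g.2.1 ∧
      w ≠ val g.2.2.1 ∧ w ≠ val g.2.2.2.1 ∧ w ≠ val g.2.2.2.2 := by
    intro k
    by_cases hk : ∃ g, (g, k) ∈ G.zipIdx
    · obtain ⟨g, hg⟩ := hk
      obtain ⟨w, hw⟩ := exists_notMem {0, val g.1, val g.2.1, val g.2.2.1, val g.2.2.2.1,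
        val g.2.2.2.2}
      simp only [Finset.mem_insert, Finset.mem_singleton, not_or] at hw
      refine ⟨w, ?_⟩
      intro g' hg'
      have e1 := List.mem_zipIdx hg
      have e2 := List.mem_zipIdx hg'
      have : g' = g := by rw [e1.2.2, e2.2.2]
      rw [this]
      exact ⟨hw.1, hw.2.1, hw.2.2.1, hw.2.2.2.1, hw.2.2.2.2.1, hw.2.2.2.2.2⟩
    · exact ⟨0, fun g hg => absurd ⟨g, hg⟩ hk⟩
  choose w hw using hw
  obtain ⟨t, ht⟩ := exists_shift (fun c => if c % 3 = 0 then val (c / 3) else w (c / 3))
  refine assemble (Dr val w t) ?_ _ ?_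
  · intro c _
    rw [Dr]
    split_ifs with h1 h2
    · simp
    · have := ht c
      simp only [h2, if_true] at this
      exact this
    · have := ht c
      simp only [h2, if_false] at this
      exact this
  · intro s hs
    have m3 : (3 : ℕ) % 3 ≠ 2 := by decide
    have m0 : (0 : ℕ) % 3 ≠ 2 := by decide
    have m6 : (6 : ℕ) % 3 ≠ 2 := by decide
    have d0 : Dr val w t 0 = (1, val 0 + t) := Dr_N val w t (n := 0) (by decide)
    have d6 : Dr val w t 6 = (1, val 2 + t) := Dr_N val w t (n := 2) (by decide)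
    have d3 := Dr_three val w t
    rw [specs, List.mem_cons] at hs
    rcases hs with rfl | hs
    · refine prism_shape _ m3 m0 m6 ?_ ?_ ?_ _ _
      · rw [d3, d0]; exact cr_inf _
      · rw [d3, d6]; exact cr_inf _
      · rw [d0, d6, h0, h2]; exact cr_fin (by norm_num) t
    rw [List.mem_flatMap] at hs
    obtain ⟨⟨g, k⟩, hgk, hs⟩ := hs
    obtain ⟨w0, we, wa, wb, wc, wd⟩ := hw k g hgk
    obtain ⟨e, a, b, c, d⟩ := g
    obtain ⟨ha, hb, hc, hd, hac, had, hbc, hbd, hS, hM⟩ := hG _ (List.fst_mem_of_mem_zipIdx hgk)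
    simp only at ha hb hc hd hac had hbc hbd hS hM we wa wb wc wd
    have da := Dr_N val w t ha
    have db := Dr_N val w t hb
    have dc := Dr_N val w t hc
    have dd := Dr_N val w t hd
    have dw := Dr_W val w t k
    rw [spG, List.mem_append, List.mem_append] at hs
    rcases hs with hs | hs | hs
    · simp only [List.mem_cons, List.not_mem_nil, or_false] at hs
      rcases hs with rfl | rfl | rfl | rfl | rfl
      · refine prism_shape _ m3 m0 (cW_mod _) ?_ ?_ ?_ _ _
        · rw [d3, d0]; exact cr_inf _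
        · rw [d3, dw]; exact cr_inf _
        · rw [d0, dw, h0]; exact cr_fin w0.symm t
      · refine prism_shape _ m3 (cW_mod _) (cN_mod _) ?_ ?_ ?_ _ _
        · rw [d3, dw]; exact cr_inf _
        · rw [d3, da]; exact cr_inf _
        · rw [dw, da]; exact cr_fin wa t
      · refine prism_shape _ m3 (cW_mod _) (cN_mod _) ?_ ?_ ?_ _ _
        · rw [d3, dw]; exact cr_inf _
        · rw [d3, db]; exact cr_inf _
        · rw [dw, db]; exact cr_fin wb t
      · refine prism_shape _ m3 (cW_mod _) (cN_mod _) ?_ ?_ ?_ _ _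
        · rw [d3, dw]; exact cr_inf _
        · rw [d3, dc]; exact cr_inf _
        · rw [dw, dc]; exact cr_fin wc t
      · refine prism_shape _ m3 (cW_mod _) (cN_mod _) ?_ ?_ ?_ _ _
        · rw [d3, dw]; exact cr_inf _
        · rw [d3, dd]; exact cr_inf _
        · rw [dw, dd]; exact cr_fin wd t
    · split_ifs at hs with he
      · simp at hs
      · simp only [List.mem_cons, List.not_mem_nil, or_false] at hs
        subst hs
        have de := Dr_N val w t he
        refine prism_shape _ m3 (cW_mod _) (cN_mod _) ?_ ?_ ?_ _ _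
        · rw [d3, dw]; exact cr_inf _
        · rw [d3, de]; exact cr_inf _
        · rw [dw, de]; exact cr_fin we t
    · simp only [List.mem_cons, List.not_mem_nil, or_false] at hs
      rcases hs with rfl | rfl | rfl | rfl | rfl
      · by_cases he : e = 1
        · subst he
          refine prism_shape _ (cN_mod _) (cN_mod _) (cN_mod _) ?_ ?_ ?_ _ _
          · rw [Dr_N1, da]; exact cr_inf _
          · rw [Dr_N1, dc]; exact cr_inf _
          · rw [da, dc]; exact cr_fin hac t
        · obtain ⟨e1, e2, e3, e4, e5⟩ := hM he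
          refine prism_shape _ (cN_mod _) (cN_mod _) (cN_mod _) ?_ ?_ ?_ _ _
          · rw [Dr_N val w t he, da]; exact cr_fin e1 t
          · rw [Dr_N val w t he, dc]; exact cr_fin e3 t
          · rw [da, dc]; exact cr_fin hac t
      · by_cases he : e = 1
        · subst he
          refine prism_shape _ (cN_mod _) (cN_mod _) (cN_mod _) ?_ ?_ ?_ _ _
          · rw [Dr_N1, db]; exact cr_inf _
          · rw [Dr_N1, dd]; exact cr_inf _
          · rw [db, dd]; exact cr_fin hbd t
        · obtain ⟨e1, e2, e3, e4, e5⟩ := hM he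
          refine prism_shape _ (cN_mod _) (cN_mod _) (cN_mod _) ?_ ?_ ?_ _ _
          · rw [Dr_N val w t he, db]; exact cr_fin e2 t
          · rw [Dr_N val w t he, dd]; exact cr_fin e4 t
          · rw [db, dd]; exact cr_fin hbd t
      · refine prism_shape _ m3 (cN_mod _) (cN_mod _) ?_ ?_ ?_ _ _
        · rw [d3, da]; exact cr_inf _
        · rw [d3, dd]; exact cr_inf _
        · rw [da, dd]; exact cr_fin had t
      · refine prism_shape _ m3 (cN_mod _) (cN_mod _) ?_ ?_ ?_ _ _
        · rw [d3, db]; exact cr_inf _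
        · rw [d3, dc]; exact cr_inf _
        · rw [db, dc]; exact cr_fin hbc t
      · have hac' : val a + t ≠ val c + t := fun h => hac (add_right_cancel h)
        have had' : val a + t ≠ val d + t := fun h => had (add_right_cancel h)
        have hbc' : val b + t ≠ val c + t := fun h => hbc (add_right_cancel h)
        by_cases he : e = 1
        · have hS' := hS he
          subst he
          refine quad_shape _ (μ := 1) (cN_mod _) (cN_mod _) (cN_mod _) (cN_mod _) (cN_mod _)
            da db dc dd d3 hac' had' hbc' one_ne_zero (by linarith) ?_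
          rw [Dr_N1]
          simp [cr]
        · obtain ⟨e1, e2, e3, e4, e5⟩ := hM he
          have n1 : val d - val e ≠ 0 := sub_ne_zero.2 (Ne.symm e4)
          have n2 : val a - val e ≠ 0 := sub_ne_zero.2 (Ne.symm e1)
          refine quad_shape _ (μ := (val a - val e) / (val d - val e)) (cN_mod _) (cN_mod _)
            (cN_mod _) (cN_mod _) (cN_mod _)
            da db dc dd d3 hac' had' hbc' (div_ne_zero n2 n1) ?_ ?_
          · field_simp
            linarith
          · rw [Dr_N val w t he]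
            simp only [cr, Prod.fst_sub, Prod.snd_sub]
            field_simp
            ring

end Pool.Agent.H621R2.Fd
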