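import Pool.Agent.H621R2.Fd.Poly
import Pool.Agent.H670R2.ERMem

/-!
Faithful drawings: membership in `∃ℝ`.
-/

set_option autoImplicit false

namespace Pool.Agent.H621R2.Fd

open Pool.Agent.H621R2 Pool.Agent.NPC Pool.Agent.NPC.ER Pool.Agent.NPC.H670R2

/-- validity of an edge-coloured graph (proper edge colouring of a simple graph) -/
def Val (G : CG) : Prop :=
  (∀ e ∈ G, e.1 ≠ e.2.1) ∧ (G.map ends).Nodup ∧
    ∀ e ∈ G, ∀ f ∈ G, e ≠ f → (e.1 = f.1 ∨ e.1 = f.2.1 ∨ e.2.1 = f.1 ∨ e.2.1 = f.2.1) →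
      e.2.2 ≠ f.2.2

/-- regularity -/
def Reg (k : ℕ) (G : CG) : Prop := ∀ v, (∃ e ∈ G, e.1 = v ∨ e.2.1 = v) → deg G v = k

def vlist (G : CG) : List ℕ := G.map (fun e => e.1) ++ G.map (fun e => e.2.1)

theorem mem_vlist {G : CG} {v : ℕ} : v ∈ vlist G ↔ ∃ e ∈ G, e.1 = v ∨ e.2.1 = v := by
  simp only [vlist, List.mem_append, List.mem_map]
  constructor
  · rintro (⟨e, he, h⟩ | ⟨e, he, h⟩)
    · exact ⟨e, he, Or.inl h⟩
    · exact ⟨e, he, Or.inr h⟩
  · rintro ⟨e, he, h | h⟩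
    · exact Or.inl ⟨e, he, h⟩
    · exact Or.inr ⟨e, he, h⟩

def sameEnds (e f : ℕ × ℕ × ℕ) : Bool :=
  (decide (e.1 = f.1) && decide (e.2.1 = f.2.1)) || (decide (e.1 = f.2.1) && decide (e.2.1 = f.1))

def meet (e f : ℕ × ℕ × ℕ) : Bool :=
  (decide (e.1 = f.1) || decide (e.1 = f.2.1)) || (decide (e.2.1 = f.1) || decide (e.2.1 = f.2.1))

def okPair (p q : (ℕ × ℕ × ℕ) × ℕ) : Bool :=
  decide (p.2 = q.2) || (!(sameEnds p.1 q.1) &&
    (!(meet p.1 q.1) || !(decide (p.1.2.2 = q.1.2.2))))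

def okB (k : ℕ) (G : CG) : Bool :=
  G.all (fun e => !(decide (e.1 = e.2.1))) &&
    (G.zipIdx.all (fun p => G.zipIdx.all (fun q => okPair p q)) &&
      (vlist G).all (fun v => decide ((G.filter (fun e => decide (e.1 = v) || decide (e.2.1 = v))).length = k)))

theorem nodup_map_iff {β γ : Type} (f : β → γ) (l : List β) : (l.map f).Nodup ↔
    ∀ p ∈ l.zipIdx, ∀ q ∈ l.zipIdx, p.2 ≠ q.2 → f p.1 ≠ f q.1 := by
  rw [List.nodup_iff_injective_get]
  constructor
  · intro h p hp q hq hne he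
    have e1 := List.mem_zipIdx hp
    have e2 := List.mem_zipIdx hq
    have l1 : p.2 < (l.map f).length := by simpa using e1.2.1
    have l2 : q.2 < (l.map f).length := by simpa using e2.2.1
    have := @h ⟨p.2, l1⟩ ⟨q.2, l2⟩ (by
      simp only [List.get_eq_getElem, List.getElem_map]
      have h1 := e1.2.2
      have h2 := e2.2.2
      simp only [Nat.sub_zero] at h1 h2
      rw [← h1, ← h2]
      exact he)
    exact hne (Fin.mk.inj this)
  · intro h i j hij
    by_contra hne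
    have hi : i.val < l.length := by simpa using i.2
    have hj : j.val < l.length := by simpa using j.2
    have m1 : (l[i.val], i.val) ∈ l.zipIdx := by
      rw [List.mem_iff_getElem]
      exact ⟨i.val, by simpa using hi, by simp⟩
    have m2 : (l[j.val], j.val) ∈ l.zipIdx := by
      rw [List.mem_iff_getElem]
      exact ⟨j.val, by simpa using hj, by simp⟩
    refine h _ m1 _ m2 (fun he => hne (Fin.ext he)) ?_
    simpa only [List.get_eq_getElem, List.getElem_map] using hij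

theorem okB_iff (k : ℕ) (G : CG) : okB k G = true ↔ Val G ∧ Reg k G := by
  unfold okB Val Reg
  simp only [Bool.and_eq_true, List.all_eq_true, Bool.not_eq_true', decide_eq_false_iff_not,
    decide_eq_true_eq, mem_vlist, nodup_map_iff]
  have hdeg : ∀ v, (G.filter (fun e => decide (e.1 = v) || decide (e.2.1 = v))).length = deg G v := by
    intro v
    rw [deg]
    congr 1
    refine List.filter_congr ?_
    intro e _
    simp
  simp only [hdeg]
  have hs : ∀ e f : ℕ × ℕ × ℕ, sameEnds e f = true ↔ ends e = ends f := by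
    intro e f
    simp [sameEnds, ends]
  have hm : ∀ e f : ℕ × ℕ × ℕ, meet e f = true ↔
      (e.1 = f.1 ∨ e.1 = f.2.1 ∨ e.2.1 = f.1 ∨ e.2.1 = f.2.1) := by
    intro e f
    simp [meet, or_assoc]
  have key : (∀ p ∈ G.zipIdx, ∀ q ∈ G.zipIdx, okPair p q = true) ↔
      (∀ p ∈ G.zipIdx, ∀ q ∈ G.zipIdx, p.2 ≠ q.2 → ends p.1 ≠ ends q.1) ∧
      ∀ e ∈ G, ∀ f ∈ G, e ≠ f → (e.1 = f.1 ∨ e.1 = f.2.1 ∨ e.2.1 = f.1 ∨ e.2.1 = f.2.1) →
        e.2.2 ≠ f.2.2 := by
    have hok : ∀ p q, okPair p q = true ↔ (p.2 ≠ q.2 → ends p.1 ≠ ends q.1 ∧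
        ((p.1.1 = q.1.1 ∨ p.1.1 = q.1.2.1 ∨ p.1.2.1 = q.1.1 ∨ p.1.2.1 = q.1.2.1) →
          p.1.2.2 ≠ q.1.2.2)) := by
      intro p q
      rw [← hm]
      have hs' := hs p.1 q.1
      simp only [okPair, Bool.or_eq_true, Bool.and_eq_true, decide_eq_true_eq,
        Bool.not_eq_true', decide_eq_false_iff_not]
      by_cases h1 : p.2 = q.2
      · simp [h1]
      · simp only [h1, false_or, ne_eq, not_false_iff, true_implies]
        rw [← hs']
        cases meet p.1 q.1 <;> cases sameEnds p.1 q.1 <;> simp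
    constructor
    · intro h
      refine ⟨fun p hp q hq hne => ((hok p q).1 (h p hp q hq) hne).1, ?_⟩
      intro e he f hf hne hv
      obtain ⟨i, hi⟩ := mem_zipIdx_of_mem he 0
      obtain ⟨j, hj⟩ := mem_zipIdx_of_mem hf 0
      refine ((hok _ _).1 (h _ hi _ hj) ?_).2 hv
      intro hij
      simp only at hij
      subst hij
      apply hne
      have e1 := List.mem_zipIdx hi
      have e2 := List.mem_zipIdx hj
      rw [e1.2.2, e2.2.2]
    · rintro ⟨h1, h2⟩ p hp q hq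
      rw [hok]
      intro hne
      refine ⟨h1 p hp q hq hne, ?_⟩
      intro hv
      refine h2 _ (List.fst_mem_of_mem_zipIdx hp) _ (List.fst_mem_of_mem_zipIdx hq) ?_ hv
      intro he
      exact h1 p hp q hq hne (by rw [he])
  rw [key]
  constructor
  · rintro ⟨a, ⟨b, c⟩, d⟩
    exact ⟨⟨a, b, c⟩, d⟩
  · rintro ⟨⟨a, b, c⟩, d⟩
    exact ⟨a, ⟨b, c⟩, d⟩

theorem poly_okB (k : ℕ) : Poly (fun G : CG => okB k G) := by
  unfold okB
  refine Poly.and ?_ (Poly.and ?_ ?_)
  · refine Poly.all (p := fun (_ : CG) (e : ℕ × ℕ × ℕ) => !(decide (e.1 = e.2.1))) Poly.id ?_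
    have h : Poly (fun p : CG × (ℕ × ℕ × ℕ) => p.2) := Poly.snd Poly.id
    exact Poly.not (Poly.decide_eq h.fst h.snd.fst)
  · refine Poly.all (p := fun (G : CG) (p : (ℕ × ℕ × ℕ) × ℕ) => G.zipIdx.all (fun q => okPair p q))
      (Poly.zipIdx Poly.id) ?_
    refine Poly.all (p := fun (x : CG × ((ℕ × ℕ × ℕ) × ℕ)) (q : (ℕ × ℕ × ℕ) × ℕ) => okPair x.2 q)
      (Poly.zipIdx (Poly.fst Poly.id)) ?_
    have hp : Poly (fun x : (CG × ((ℕ × ℕ × ℕ) × ℕ)) × ((ℕ × ℕ × ℕ) × ℕ) => x.1.2) :=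
      Poly.snd (Poly.fst Poly.id)
    have hq : Poly (fun x : (CG × ((ℕ × ℕ × ℕ) × ℕ)) × ((ℕ × ℕ × ℕ) × ℕ) => x.2) :=
      Poly.snd Poly.id
    unfold okPair sameEnds meet
    have a1 := hp.fst.fst
    have a2 := hp.fst.snd.fst
    have a3 := hp.fst.snd.snd
    have b1 := hq.fst.fst
    have b2 := hq.fst.snd.fst
    have b3 := hq.fst.snd.snd
    exact Poly.or (Poly.decide_eq hp.snd hq.snd) (Poly.and (Poly.not
      (Poly.or (Poly.and (Poly.decide_eq a1 b1) (Poly.decide_eq a2 b2))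
        (Poly.and (Poly.decide_eq a1 b2) (Poly.decide_eq a2 b1))))
      (Poly.or (Poly.not (Poly.or (Poly.or (Poly.decide_eq a1 b1) (Poly.decide_eq a1 b2))
        (Poly.or (Poly.decide_eq a2 b1) (Poly.decide_eq a2 b2))))
        (Poly.not (Poly.decide_eq a3 b3))))
  · refine Poly.all (p := fun (G : CG) (v : ℕ) =>
      decide ((G.filter (fun e => decide (e.1 = v) || decide (e.2.1 = v))).length = k)) ?_ ?_
    · unfold vlist
      refine Poly.append (NPC.Poly.map (F := fun (_ : CG) (e : ℕ × ℕ × ℕ) => e.1) Poly.id ?_)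
        (NPC.Poly.map (F := fun (_ : CG) (e : ℕ × ℕ × ℕ) => e.2.1) Poly.id ?_)
      · exact Poly.fst (Poly.snd Poly.id)
      · exact Poly.fst (Poly.snd (Poly.snd Poly.id))
    · refine Poly.decide_eq (Poly.length (Poly.filter
        (p := fun (x : CG × ℕ) (e : ℕ × ℕ × ℕ) => decide (e.1 = x.2) || decide (e.2.1 = x.2))
        (Poly.fst Poly.id) ?_)) (NPC.Poly.const k)
      have hv : Poly (fun x : (CG × ℕ) × (ℕ × ℕ × ℕ) => x.1.2) := Poly.snd (Poly.fst Poly.id)
      have he : Poly (fun x : (CG × ℕ) × (ℕ × ℕ × ℕ) => x.2) := Poly.snd Poly.id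
      exact Poly.or (Poly.decide_eq he.fst hv) (Poly.decide_eq he.snd.fst hv)

/-- coordinates of vertices and colours -/
def cx (v : ℕ) : Tm := Tm.var (4 * v)
def cy (v : ℕ) : Tm := Tm.var (4 * v + 1)
def px (v : ℕ) : Tm := Tm.var (4 * v + 2)
def py (v : ℕ) : Tm := Tm.var (4 * v + 3)

def subT (a b : Tm) : Tm := Tm.add a (Tm.neg b)

/-- collinearity with the vertices `u`, `v` -/
def colF (u v : ℕ) (c d : Tm) : Fm :=
  Fm.eq (Tm.mul (subT (cx v) (cx u)) (subT d (cy u))) (Tm.mul (subT (cy v) (cy u)) (subT c (cx u)))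

def injF (G : CG) : Fm := conj ((vlist G).flatMap (fun u => (vlist G).map (fun v =>
  if u = v then tt else Fm.not (Fm.and (Fm.eq (cx u) (cx v)) (Fm.eq (cy u) (cy v))))))

def colsF (G : CG) : Fm := conj (G.map (fun e => colF e.1 e.2.1 (px e.2.2) (py e.2.2)))

def distF (G : CG) : Fm := conj (G.flatMap (fun e => G.map (fun f =>
  if e = f then tt else Fm.not (Fm.and (colF e.1 e.2.1 (cx f.1) (cy f.1))
    (colF e.1 e.2.1 (cx f.2.1) (cy f.2.1))))))

def F (k : ℕ) (G : CG) : Fm :=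
  if okB k G = true then Fm.and (injF G) (Fm.and (colsF G) (distF G)) else ff

theorem holds_colF (x : ℕ → ℝ) (u v : ℕ) (c d : Tm) : (colF u v c d).Holds x ↔
    Col (x (4 * u), x (4 * u + 1)) (x (4 * v), x (4 * v + 1)) (c.eval x, d.eval x) := by
  simp only [colF, subT, cx, cy, Fm.Holds, Tm.eval, Col, cr, Prod.fst_sub, Prod.snd_sub]
  constructor <;> intro h <;> linarith

theorem holds_parts (x : ℕ → ℝ) (G : CG) :
    (Fm.and (injF G) (Fm.and (colsF G) (distF G))).Holds x ↔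
      FD G (fun v => (x (4 * v), x (4 * v + 1))) (fun c => (x (4 * c + 2), x (4 * c + 3))) := by
  have h1 : (injF G).Holds x ↔ Set.InjOn (fun v => ((x (4 * v), x (4 * v + 1)) : Pt)) (V G) := by
    rw [injF, holds_conj]
    constructor
    · intro h u hu v hv huv
      by_contra hne
      have := h _ (List.mem_flatMap.2 ⟨u, mem_vlist.2 hu, List.mem_map.2 ⟨v, mem_vlist.2 hv, rfl⟩⟩)
      rw [if_neg hne] at this
      simp only [Fm.Holds, cx, cy, Tm.eval] at this
      simp only [Prod.mk.injEq] at huv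
      exact this huv
    · intro h φ hφ
      obtain ⟨u, hu, hφ⟩ := List.mem_flatMap.1 hφ
      obtain ⟨v, hv, rfl⟩ := List.mem_map.1 hφ
      split_ifs with huv
      · exact holds_tt x
      · simp only [Fm.Holds, cx, cy, Tm.eval]
        intro he
        exact huv (h (mem_vlist.1 hu) (mem_vlist.1 hv) (Prod.ext he.1 he.2))
  have h2 : (colsF G).Holds x ↔ ∀ e ∈ G, Col (x (4 * e.1), x (4 * e.1 + 1))
      (x (4 * e.2.1), x (4 * e.2.1 + 1)) (x (4 * e.2.2 + 2), x (4 * e.2.2 + 3)) := by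
    rw [colsF, holds_conj]
    constructor
    · intro h e he
      have := h _ (List.mem_map.2 ⟨e, he, rfl⟩)
      rwa [holds_colF] at this
    · intro h φ hφ
      obtain ⟨e, he, rfl⟩ := List.mem_map.1 hφ
      rw [holds_colF]
      exact h e he
  have h3 : (distF G).Holds x ↔ ∀ e ∈ G, ∀ f ∈ G, e ≠ f →
      ¬ (Col (x (4 * e.1), x (4 * e.1 + 1)) (x (4 * e.2.1), x (4 * e.2.1 + 1))
          (x (4 * f.1), x (4 * f.1 + 1)) ∧
        Col (x (4 * e.1), x (4 * e.1 + 1)) (x (4 * e.2.1), x (4 * e.2.1 + 1))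
          (x (4 * f.2.1), x (4 * f.2.1 + 1))) := by
    rw [distF, holds_conj]
    constructor
    · intro h e he f hf hne
      have := h _ (List.mem_flatMap.2 ⟨e, he, List.mem_map.2 ⟨f, hf, rfl⟩⟩)
      rw [if_neg hne] at this
      simp only [Fm.Holds, holds_colF] at this
      exact this
    · intro h φ hφ
      obtain ⟨e, he, hφ⟩ := List.mem_flatMap.1 hφ
      obtain ⟨f, hf, rfl⟩ := List.mem_map.1 hφ
      split_ifs with hef
      · exact holds_tt x
      · simp only [Fm.Holds, holds_colF]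
        exact h e he f hf hef
  simp only [Fm.Holds]
  rw [h1, h2, h3]
  constructor
  · rintro ⟨a, b, c⟩
    exact ⟨a, b, c⟩
  · rintro ⟨a, b, c⟩
    exact ⟨a, b, c⟩

theorem etr_F (k : ℕ) (G : CG) : ETR (F k G) ↔ (Val G ∧ Reg k G) ∧ ∃ p P, FD G p P := by
  unfold F
  by_cases hok : okB k G = true
  · rw [if_pos hok]
    have hv := (okB_iff k G).1 hok
    constructor
    · rintro ⟨x, hx⟩
      rw [holds_parts] at hx
      exact ⟨hv, _, _, hx⟩
    · rintro ⟨_, p, P, h⟩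
      refine ⟨fun n => if n % 4 = 0 then (p (n / 4)).1 else if n % 4 = 1 then (p (n / 4)).2 else
        if n % 4 = 2 then (P (n / 4)).1 else (P (n / 4)).2, ?_⟩
      rw [holds_parts]
      have a0 : ∀ v, (4 * v) % 4 = 0 := fun v => by omega
      have a1 : ∀ v, (4 * v + 1) % 4 = 1 := fun v => by omega
      have a2 : ∀ v, (4 * v + 2) % 4 = 2 := fun v => by omega
      have a3 : ∀ v, (4 * v + 3) % 4 = 3 := fun v => by omega
      have b0 : ∀ v, (4 * v) / 4 = v := fun v => by omega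
      have b1 : ∀ v, (4 * v + 1) / 4 = v := fun v => by omega
      have b2 : ∀ v, (4 * v + 2) / 4 = v := fun v => by omega
      have b3 : ∀ v, (4 * v + 3) / 4 = v := fun v => by omega
      have n1 : ¬ ((1 : ℕ) = 0) := by decide
      have n2 : ¬ ((2 : ℕ) = 0) := by decide
      have n3 : ¬ ((2 : ℕ) = 1) := by decide
      have n4 : ¬ ((3 : ℕ) = 0) := by decide
      have n5 : ¬ ((3 : ℕ) = 1) := by decide
      have n6 : ¬ ((3 : ℕ) = 2) := by decide
      simp only [a0, a1, a2, a3, b0, b1, b2, b3, n1, n2, n3, n4, n5, n6, if_true, if_false,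
        Prod.mk.eta]
      exact h
  · rw [if_neg hok]
    constructor
    · rintro ⟨x, hx⟩
      exact absurd hx (holds_ff x)
    · rintro ⟨hv, _⟩
      exact absurd ((okB_iff k G).2 hv) hok

section polyF

variable {α : Type} [TEnc α]

theorem poly_cx {v : α → ℕ} (hv : Poly v) : Poly (fun a => cx (v a)) :=
  poly_tvar (Poly.mul (NPC.Poly.const 4) hv)

theorem poly_cy {v : α → ℕ} (hv : Poly v) : Poly (fun a => cy (v a)) :=
  poly_tvar (Poly.add (Poly.mul (NPC.Poly.const 4) hv) (NPC.Poly.const 1))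

theorem poly_px {v : α → ℕ} (hv : Poly v) : Poly (fun a => px (v a)) :=
  poly_tvar (Poly.add (Poly.mul (NPC.Poly.const 4) hv) (NPC.Poly.const 2))

theorem poly_py {v : α → ℕ} (hv : Poly v) : Poly (fun a => py (v a)) :=
  poly_tvar (Poly.add (Poly.mul (NPC.Poly.const 4) hv) (NPC.Poly.const 3))

theorem poly_subT {s t : α → Tm} (hs : Poly s) (ht : Poly t) : Poly (fun a => subT (s a) (t a)) :=
  poly_tadd hs (poly_tneg ht)

theorem poly_colF {u v : α → ℕ} {c d : α → Tm} (hu : Poly u) (hv : Poly v) (hc : Poly c)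
    (hd : Poly d) : Poly (fun a => colF (u a) (v a) (c a) (d a)) :=
  poly_eq (poly_tmul (poly_subT (poly_cx hv) (poly_cx hu)) (poly_subT hd (poly_cy hu)))
    (poly_tmul (poly_subT (poly_cy hv) (poly_cy hu)) (poly_subT hc (poly_cx hu)))

end polyF

theorem poly_vlist : Poly (fun G : CG => vlist G) := by
  unfold vlist
  refine Poly.append (NPC.Poly.map (F := fun (_ : CG) (e : ℕ × ℕ × ℕ) => e.1) Poly.id ?_)
    (NPC.Poly.map (F := fun (_ : CG) (e : ℕ × ℕ × ℕ) => e.2.1) Poly.id ?_)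
  · exact Poly.fst (Poly.snd Poly.id)
  · exact Poly.fst (Poly.snd (Poly.snd Poly.id))

theorem poly_F (k : ℕ) : Poly (fun G : CG => F k G) := by
  unfold F
  refine Poly.ite (Poly.decide_bool (poly_okB k)) (poly_and ?_ (poly_and ?_ ?_)) (NPC.Poly.const _)
  · unfold injF
    refine poly_conj (Poly.flatMap (F := fun (G : CG) (u : ℕ) => (vlist G).map (fun v =>
      if u = v then tt else Fm.not (Fm.and (Fm.eq (cx u) (cx v)) (Fm.eq (cy u) (cy v)))))
      poly_vlist ?_)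
    refine NPC.Poly.map (F := fun (x : CG × ℕ) (v : ℕ) =>
      if x.2 = v then tt else Fm.not (Fm.and (Fm.eq (cx x.2) (cx v)) (Fm.eq (cy x.2) (cy v))))
      (poly_vlist.comp (Poly.fst Poly.id)) ?_
    have hu : Poly (fun p : (CG × ℕ) × ℕ => p.1.2) := Poly.snd (Poly.fst Poly.id)
    have hv : Poly (fun p : (CG × ℕ) × ℕ => p.2) := Poly.snd Poly.id
    exact Poly.ite (Poly.decide_eq hu hv) (NPC.Poly.const _)
      (poly_not (poly_and (poly_eq (poly_cx hu) (poly_cx hv)) (poly_eq (poly_cy hu) (poly_cy hv))))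
  · unfold colsF
    refine poly_conj (NPC.Poly.map (F := fun (_ : CG) (e : ℕ × ℕ × ℕ) =>
      colF e.1 e.2.1 (px e.2.2) (py e.2.2)) Poly.id ?_)
    have he : Poly (fun p : CG × (ℕ × ℕ × ℕ) => p.2) := Poly.snd Poly.id
    exact poly_colF he.fst he.snd.fst (poly_px he.snd.snd) (poly_py he.snd.snd)
  · unfold distF
    refine poly_conj (Poly.flatMap (F := fun (G : CG) (e : ℕ × ℕ × ℕ) => G.map (fun f =>
      if e = f then tt else Fm.not (Fm.and (colF e.1 e.2.1 (cx f.1) (cy f.1))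
        (colF e.1 e.2.1 (cx f.2.1) (cy f.2.1))))) Poly.id ?_)
    refine NPC.Poly.map (F := fun (x : CG × (ℕ × ℕ × ℕ)) (f : ℕ × ℕ × ℕ) =>
      if x.2 = f then tt else Fm.not (Fm.and (colF x.2.1 x.2.2.1 (cx f.1) (cy f.1))
        (colF x.2.1 x.2.2.1 (cx f.2.1) (cy f.2.1)))) (Poly.fst Poly.id) ?_
    have he : Poly (fun p : (CG × (ℕ × ℕ × ℕ)) × (ℕ × ℕ × ℕ) => p.1.2) := Poly.snd (Poly.fst Poly.id)
    have hf : Poly (fun p : (CG × (ℕ × ℕ × ℕ)) × (ℕ × ℕ × ℕ) => p.2) := Poly.snd Poly.id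
    exact Poly.ite (Poly.decide_eq he hf) (NPC.Poly.const _)
      (poly_not (poly_and (poly_colF he.fst he.snd.fst (poly_cx hf.fst) (poly_cy hf.fst))
        (poly_colF he.fst he.snd.fst (poly_cx hf.snd.fst) (poly_cy hf.snd.fst))))

end Pool.Agent.H621R2.Fd
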