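import Pool.Agent.H621R2.Fd.Main
import Pool.Agent.H621R2.Lin

/-!
Faithful drawings: the reduction is computable in polynomial time.
-/

set_option autoImplicit false

namespace Pool.Agent.H621R2.Fd

open Pool.Agent.H621R2 Pool.Agent.NPC Pool.Agent.NPC.ER

/-- The coloured graph of a system of constraints. -/
def graphOf (S : List Con) : CG := inst (specs (gatesOf S))

theorem graphOf_correct (S : List Con) : Sat S ↔ ∃ p P, FD (graphOf S) p P := by
  constructor
  · intro h
    obtain ⟨val, h0, h2, h⟩ := gatesOf_complete h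
    exact complete h0 h2 h
  · rintro ⟨p, P, hp⟩
    obtain ⟨fin, val, f0, v0, f2, v2, h⟩ := sound hp
    exact gatesOf_sound f0 v0 f2 v2 h

section poly

variable {α : Type} [TEnc α]

theorem poly_vx {j : α → ℕ} (hj : Poly j) (i : ℕ) : Poly (fun a => vx (j a) i) := by
  unfold vx; fun_prop

theorem poly_cF {j : α → ℕ} (hj : Poly j) (i : ℕ) : Poly (fun a => cF (j a) i) := by
  unfold cF; fun_prop

theorem poly_cN {j : α → ℕ} (hj : Poly j) : Poly (fun a => cN (j a)) := by
  unfold cN; fun_prop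

theorem poly_cW {j : α → ℕ} (hj : Poly j) : Poly (fun a => cW (j a)) := by
  unfold cW; fun_prop

theorem poly_prE {X Y Z j : α → ℕ} (hX : Poly X) (hY : Poly Y) (hZ : Poly Z) (hj : Poly j) :
    Poly (fun a => prE (X a) (Y a) (Z a) (j a)) := by
  have v := fun i => poly_vx hj i
  have f := fun i => poly_cF hj i
  unfold prE
  exact (poly_trp (v 1) (v 2) hX).cons ((poly_trp (v 4) (v 5) hX).cons
    ((poly_trp (v 2) (v 0) hY).cons ((poly_trp (v 5) (v 3) hY).cons
    ((poly_trp (v 0) (v 1) hZ).cons ((poly_trp (v 3) (v 4) hZ).cons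
    ((poly_trp (v 0) (v 3) (f 0)).cons ((poly_trp (v 1) (v 4) (f 0)).cons
    ((poly_trp (v 2) (v 5) (f 0)).cons ((poly_trp (v 0) (v 4) (f 1)).cons
    ((poly_trp (v 1) (v 5) (f 2)).cons ((poly_trp (v 2) (v 3) (f 3)).cons
    (NPC.Poly.const []))))))))))))

theorem poly_quE {E A B C D j : α → ℕ} (hE : Poly E) (hA : Poly A) (hB : Poly B) (hC : Poly C)
    (hD : Poly D) (hj : Poly j) :
    Poly (fun a => quE (E a) (A a) (B a) (C a) (D a) (j a)) := by
  have v := fun i => poly_vx hj i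
  have f := fun i => poly_cF hj i
  have c3 : Poly (fun _ : α => 3) := NPC.Poly.const 3
  unfold quE
  exact (poly_trp (v 0) (v 1) hE).cons ((poly_trp (v 2) (v 3) c3).cons
    ((poly_trp (v 0) (v 2) hA).cons ((poly_trp (v 1) (v 3) hB).cons
    ((poly_trp (v 0) (v 3) hC).cons ((poly_trp (v 1) (v 2) hD).cons
    ((poly_trp (v 4) (v 5) hE).cons ((poly_trp (v 6) (v 7) c3).cons
    ((poly_trp (v 4) (v 6) hA).cons ((poly_trp (v 5) (v 7) hB).cons
    ((poly_trp (v 4) (v 7) hC).cons ((poly_trp (v 5) (v 6) hD).cons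
    ((poly_trp (v 0) (v 4) (f 0)).cons ((poly_trp (v 1) (v 5) (f 1)).cons
    ((poly_trp (v 2) (v 6) (f 2)).cons ((poly_trp (v 3) (v 7) (f 3)).cons
    (NPC.Poly.const []))))))))))))))))

theorem poly_gadg {s : α → Spec} {j : α → ℕ} (hs : Poly s) (hj : Poly j) :
    Poly (fun a => gadg (s a) (j a)) := by
  unfold gadg
  refine Poly.ite (Poly.decide_eq hs.fst (NPC.Poly.const 0)) ?_ ?_
  · exact poly_prE hs.snd.fst hs.snd.snd.fst hs.snd.snd.snd.fst hj
  · exact poly_quE hs.snd.fst hs.snd.snd.fst hs.snd.snd.snd.fst hs.snd.snd.snd.snd.fst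
      hs.snd.snd.snd.snd.snd hj

theorem poly_inst {L : α → List Spec} (hL : Poly L) : Poly (fun a => inst (L a)) := by
  unfold inst
  refine Poly.flatMap (F := fun (_ : α) (q : Spec × ℕ) => gadg q.1 q.2) (Poly.zipIdx hL) ?_
  exact poly_gadg (Poly.fst (Poly.snd Poly.id)) (Poly.snd (Poly.snd Poly.id))

theorem poly_spec {t u v w x y : α → ℕ} (ht : Poly t) (hu : Poly u) (hv : Poly v) (hw : Poly w)
    (hx : Poly x) (hy : Poly y) :
    Poly (fun a => ((t a, u a, v a, w a, x a, y a) : Spec)) :=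
  ht.pair (hu.pair (hv.pair (hw.pair (hx.pair hy))))

theorem poly_spG {g : α → Gt} {k : α → ℕ} (hg : Poly g) (hk : Poly k) :
    Poly (fun a => spG (g a) (k a)) := by
  have he : Poly (fun a => (g a).1) := hg.fst
  have ce : Poly (fun a => cN (g a).1) := poly_cN he
  have ca : Poly (fun a => cN (g a).2.1) := poly_cN hg.snd.fst
  have cb : Poly (fun a => cN (g a).2.2.1) := poly_cN hg.snd.snd.fst
  have cc : Poly (fun a => cN (g a).2.2.2.1) := poly_cN hg.snd.snd.snd.fst
  have cd : Poly (fun a => cN (g a).2.2.2.2) := poly_cN hg.snd.snd.snd.snd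
  have cw : Poly (fun a => cW (k a)) := poly_cW hk
  have cst := fun n : ℕ => (NPC.Poly.const n : Poly (fun _ : α => n))
  unfold spG
  refine Poly.append ?_ (Poly.append (Poly.ite (Poly.decide_eq he (cst 1)) ?_ ?_) ?_)
  · exact (poly_spec (cst 0) (cst 3) (cst 0) cw (cst 0) (cst 0)).cons
      ((poly_spec (cst 0) (cst 3) cw ca (cst 0) (cst 0)).cons
      ((poly_spec (cst 0) (cst 3) cw cb (cst 0) (cst 0)).cons
      ((poly_spec (cst 0) (cst 3) cw cc (cst 0) (cst 0)).cons
      ((poly_spec (cst 0) (cst 3) cw cd (cst 0) (cst 0)).cons (NPC.Poly.const [])))))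
  · exact NPC.Poly.const []
  · exact (poly_spec (cst 0) (cst 3) cw ce (cst 0) (cst 0)).cons (NPC.Poly.const [])
  · exact (poly_spec (cst 0) ce ca cc (cst 0) (cst 0)).cons
      ((poly_spec (cst 0) ce cb cd (cst 0) (cst 0)).cons
      ((poly_spec (cst 0) (cst 3) ca cd (cst 0) (cst 0)).cons
      ((poly_spec (cst 0) (cst 3) cb cc (cst 0) (cst 0)).cons
      ((poly_spec (cst 1) ce ca cb cc cd).cons (NPC.Poly.const [])))))

theorem poly_graphOf {S : α → List Con} (hS : Poly S) : Poly (fun a => graphOf (S a)) := by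
  unfold graphOf
  refine poly_inst ?_
  unfold specs
  refine Poly.cons (NPC.Poly.const _) ?_
  refine Poly.flatMap (F := fun (_ : α) (q : Gt × ℕ) => spG q.1 q.2)
    (Poly.zipIdx (poly_gatesOf hS)) ?_
  exact poly_spG (Poly.fst (Poly.snd Poly.id)) (Poly.snd (Poly.snd Poly.id))

end poly

end Pool.Agent.H621R2.Fd
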