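import Pool.Agent.H621R2.Fd.Geom
import Pool.Agent.H621R2.Pappus

/-!
Faithful drawings: complete quadrilaterals whose six colours are on one line.
-/

set_option autoImplicit false

namespace Pool.Agent.H621R2.Fd

open Pool.Agent.H621R2

/-- an edge whose colour is the point `s` of the axis -/
def Ed (s x1 y1 x2 y2 : ℝ) : Prop := s * (y1 - y2) = x2 * y1 - x1 * y2

theorem col_ed {A d g : Pt} (h : cr d g ≠ 0) (x1 y1 x2 y2 s : ℝ) :
    Col (A + x1 • d + y1 • g) (A + x2 • d + y2 • g) (A + s • d) ↔ Ed s x1 y1 x2 y2 := by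
  have := col_coord (X := A) h x1 y1 x2 y2 s 0
  rw [zero_smul, add_zero] at this
  rw [this, Ed]
  constructor <;> intro h <;> linarith

/-- The vertices of the gates are not on the axis. -/
theorem off_line {xv yv x1 y1 x2 y2 x3 y3 s1 s2 s3 : ℝ} (h1 : Ed s1 xv yv x1 y1)
    (h2 : Ed s2 xv yv x2 y2) (h3 : Ed s3 xv yv x3 y3) (n12 : s1 ≠ s2) (n13 : s1 ≠ s3)
    (n23 : s2 ≠ s3)
    (c12 : ¬ ((x1 - xv) * (y2 - yv) - (y1 - yv) * (x2 - xv) = 0))
    (c13 : ¬ ((x1 - xv) * (y3 - yv) - (y1 - yv) * (x3 - xv) = 0))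
    (c23 : ¬ ((x2 - xv) * (y3 - yv) - (y2 - yv) * (x3 - xv) = 0)) : yv ≠ 0 := by
  rintro rfl
  simp only [Ed] at h1 h2 h3
  have k : ∀ {s x y : ℝ}, s * (0 - y) = x * 0 - xv * y → s = xv ∨ y = 0 := by
    intro s x y h
    have : (s - xv) * y = 0 := by linarith
    rcases mul_eq_zero.1 this with h | h
    · left; linarith
    · right; exact h
  rcases k h1 with e1 | e1 <;> rcases k h2 with e2 | e2 <;> rcases k h3 with e3 | e3
  · exact n12 (e1.trans e2.symm)
  · exact n12 (e1.trans e2.symm)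
  · exact n13 (e1.trans e3.symm)
  · apply c23; rw [e2, e3]; ring
  · exact n23 (e2.trans e3.symm)
  · apply c13; rw [e1, e3]; ring
  · apply c12; rw [e1, e2]; ring
  · apply c12; rw [e1, e2]; ring

theorem ed_div {s x1 y1 x2 y2 : ℝ} (h : Ed s x1 y1 x2 y2) (h1 : y1 ≠ 0) (h2 : y2 ≠ 0) :
    s * (1 / y2 - 1 / y1) = x2 / y2 - x1 / y1 := by
  simp only [Ed] at h
  field_simp
  linarith

theorem quad_alg {sA sB sC sD sE U1 V1 U2 V2 U V3 V4 : ℝ} (h12 : sE * (V2 - V1) = U2 - U1)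
    (h13 : sA * (V3 - V1) = U - U1) (h24 : sB * (V4 - V2) = U - U2) (h14 : sC * (V4 - V1) = U - U1)
    (h23 : sD * (V3 - V2) = U - U2) (hA : sA ≠ 0) (hB : sB ≠ 0) (hC : sC ≠ 0) (hD : sD ≠ 0)
    (n1 : U - U1 ≠ 0) (_n2 : U - U2 ≠ 0) :
    (sE = 0 → 1 / sA + 1 / sB = 1 / sC + 1 / sD) ∧
    (sE ≠ 0 → (1 / sA - 1 / sE) * (1 / sB - 1 / sE) = (1 / sC - 1 / sE) * (1 / sD - 1 / sE)) := by
  obtain ⟨a, ha⟩ : ∃ a, a = 1 / sA := ⟨_, rfl⟩
  obtain ⟨b, hb⟩ : ∃ a, a = 1 / sB := ⟨_, rfl⟩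
  obtain ⟨c, hc⟩ : ∃ a, a = 1 / sC := ⟨_, rfl⟩
  obtain ⟨d, hd⟩ : ∃ a, a = 1 / sD := ⟨_, rfl⟩
  have e13 : V3 - V1 = a * (U - U1) := by rw [ha]; field_simp; linarith
  have e24 : V4 - V2 = b * (U - U2) := by rw [hb]; field_simp; linarith
  have e14 : V4 - V1 = c * (U - U1) := by rw [hc]; field_simp; linarith
  have e23 : V3 - V2 = d * (U - U2) := by rw [hd]; field_simp; linarith
  rw [← ha, ← hb, ← hc, ← hd]
  have k1 : (a - c) * (U - U1) = (d - b) * (U - U2) := by linear_combination e14 - e13 + e23 - e24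
  constructor
  · intro h
    rw [h] at h12
    have : U2 = U1 := by linarith
    rw [this] at k1
    have := mul_right_cancel₀ n1 k1
    linarith
  · intro h
    obtain ⟨e, he⟩ : ∃ a, a = 1 / sE := ⟨_, rfl⟩
    have e12 : V2 - V1 = e * (U2 - U1) := by rw [he]; field_simp; linarith
    rw [← he]
    have k2 : (a - e) * (U - U1) = (d - e) * (U - U2) := by linear_combination e12 - e13 + e23
    have k3 : ((a - c) * (d - e) - (d - b) * (a - e)) * ((U - U1) * (U - U2)) = 0 := by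
      linear_combination (d - e) * (U - U2) * k1 - (d - b) * (U - U2) * k2
    have k4 := (mul_eq_zero.1 k3).resolve_right (mul_ne_zero n1 _n2)
    linarith

/-- Soundness of the gates. -/
theorem quad_sound {A d g v1 v2 v3 v4 : Pt} (h : cr d g ≠ 0) {sA sB sC sD sE : ℝ}
    (h12 : Col v1 v2 (A + sE • d)) (h34 : Col v3 v4 A) (h13 : Col v1 v3 (A + sA • d))
    (h24 : Col v2 v4 (A + sB • d)) (h14 : Col v1 v4 (A + sC • d)) (h23 : Col v2 v3 (A + sD • d))
    (n123 : ¬ Col v1 v2 v3) (n124 : ¬ Col v1 v2 v4) (n134 : ¬ Col v1 v3 v4) (n234 : ¬ Col v2 v3 v4)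
    (hEA : sE ≠ sA) (hEC : sE ≠ sC) (hAC : sA ≠ sC) (hEB : sE ≠ sB) (hED : sE ≠ sD) (hBD : sB ≠ sD)
    (hA : sA ≠ 0) (hD : sD ≠ 0) (hAD : sA ≠ sD) (hB : sB ≠ 0) (hC : sC ≠ 0) (hBC : sB ≠ sC) :
    (sE = 0 → 1 / sA + 1 / sB = 1 / sC + 1 / sD) ∧
    (sE ≠ 0 → (1 / sA - 1 / sE) * (1 / sB - 1 / sE) = (1 / sC - 1 / sE) * (1 / sD - 1 / sE)) := by
  obtain ⟨x1, y1, e1⟩ := exists_coord (A := A) h v1
  obtain ⟨x2, y2, e2⟩ := exists_coord (A := A) h v2
  obtain ⟨x3, y3, e3⟩ := exists_coord (A := A) h v3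
  obtain ⟨x4, y4, e4⟩ := exists_coord (A := A) h v4
  have eA : A = A + (0 : ℝ) • d := by simp
  rw [eA] at h34
  rw [e1, e2, e3, col_coord h] at n123
  rw [e1, e2, e4, col_coord h] at n124
  rw [e1, e3, e4, col_coord h] at n134
  rw [e2, e3, e4, col_coord h] at n234
  rw [e1, e2, col_ed h] at h12
  rw [e3, e4, col_ed h] at h34
  rw [e1, e3, col_ed h] at h13
  rw [e2, e4, col_ed h] at h24
  rw [e1, e4, col_ed h] at h14
  rw [e2, e3, col_ed h] at h23
  have sym : ∀ {s a b c d : ℝ}, Ed s a b c d → Ed s c d a b := by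
    intro s a b c d h; simp only [Ed] at h ⊢; linarith
  have z1 : y1 ≠ 0 := off_line h12 h13 h14 hEA hEC hAC n123 n124 n134
  have z2 : y2 ≠ 0 := off_line (sym h12) h24 h23 hEB hED hBD (fun h => n124 (by linarith))
    (fun h => n123 (by linarith)) (fun h => n234 (by linarith))
  have z3 : y3 ≠ 0 := off_line h34 (sym h13) (sym h23) (Ne.symm hA) (Ne.symm hD) hAD
    (fun h => n134 (by linarith)) (fun h => n234 (by linarith)) (fun h => n123 (by linarith))
  have z4 : y4 ≠ 0 := off_line (sym h34) (sym h24) (sym h14) (Ne.symm hB) (Ne.symm hC) hBC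
    (fun h => n234 (by linarith)) (fun h => n134 (by linarith)) (fun h => n124 (by linarith))
  have f12 := ed_div h12 z1 z2
  have f34 := ed_div h34 z3 z4
  have f13 := ed_div h13 z1 z3
  have f24 := ed_div h24 z2 z4
  have f14 := ed_div h14 z1 z4
  have f23 := ed_div h23 z2 z3
  have hU : x4 / y4 = x3 / y3 := by linarith
  rw [hU] at f24 f14
  refine quad_alg f12 f13 f24 f14 f23 hA hB hC hD ?_ ?_
  · intro h0
    rw [h0] at f13 f14
    have g3 := (mul_eq_zero.1 f13).resolve_left hA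
    have g4 := (mul_eq_zero.1 f14).resolve_left hC
    have g3' : y3 = y1 := by
      field_simp at g3; linarith
    have h13' : x3 = x1 := by
      rw [g3'] at h0
      field_simp at h0; linarith
    apply n123
    rw [g3', h13']
    ring
  · intro h0
    rw [h0] at f24 f23
    have g3 := (mul_eq_zero.1 f23).resolve_left hD
    have g3' : y3 = y2 := by
      field_simp at g3; linarith
    have h13' : x3 = x2 := by
      rw [g3'] at h0
      field_simp at h0; linarith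
    apply n123
    rw [g3', h13']
    ring

end Pool.Agent.H621R2.Fd
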