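import Pool.Agent.H621R2.Fd.Comp

/-!
Faithful drawings: the shapes of the gadgets.
-/

set_option autoImplicit false

namespace Pool.Agent.H621R2.Fd

open Pool.Agent.H621R2 Filter

/-- Integer coordinates of the prism. -/
def π : Fin 8 → ℤ × ℤ
  | 0 => (0, 0) | 1 => (1, 0) | 2 => (0, 1) | 3 => (-3, -5) | 4 => (-1, -5) | 5 => (-3, -3)
  | 6 => (7, 11) | 7 => (13, 5)

def detZ (i j k : Fin 8) : ℤ :=
  ((π j).1 - (π i).1) * ((π k).2 - (π i).2) - ((π j).2 - (π i).2) * ((π k).1 - (π i).1)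

theorem detZ_dist : ∀ e ∈ prP, ∀ f ∈ prP, e ≠ f →
    ¬ (detZ e.1 e.2 f.1 = 0 ∧ detZ e.1 e.2 f.2 = 0) := by decide

theorem pi_inj : Function.Injective π := by decide

theorem prism_shape (D : ℕ → Pt) {X Y Z : ℕ} (mX : X % 3 ≠ 2) (mY : Y % 3 ≠ 2) (mZ : Z % 3 ≠ 2)
    (hXY : cr (D X) (D Y) ≠ 0) (hXZ : cr (D X) (D Z) ≠ 0) (hYZ : cr (D Y) (D Z) ≠ 0)
    (u v : ℕ) : ∃ σ o, Sh D (0, X, Y, Z, u, v) σ o := by
  obtain ⟨e1, he1⟩ : ∃ e, e = cr (D Y) (D X) • D Z := ⟨_, rfl⟩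
  obtain ⟨e2, he2⟩ : ∃ e, e = cr (D Z) (D X) • D Y := ⟨_, rfl⟩
  have hE : cr e1 e2 ≠ 0 := by
    have : cr e1 e2 = (cr (D X) (D Y)) * (cr (D X) (D Z)) * -(cr (D Y) (D Z)) := by
      rw [he1, he2]
      simp only [cr, Prod.smul_fst, Prod.smul_snd, smul_eq_mul]
      ring
    rw [this]
    exact mul_ne_zero (mul_ne_zero hXY hXZ) (neg_ne_zero.2 hYZ)
  have hcol : ∀ a b c d e f : ℝ, Col (a • e1 + b • e2) (c • e1 + d • e2) (e • e1 + f • e2) ↔
      (c - a) * (f - b) - (d - b) * (e - a) = 0 := by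
    intro a b c d e f
    have := col_coord (X := 0) hE a b c d e f
    simpa only [zero_add] using this
  have pX : ∀ a b c d : ℝ, (c - a) + (d - b) = 0 →
      cr (c • e1 + d • e2 - (a • e1 + b • e2)) (D X) = 0 := by
    intro a b c d h
    have : cr (c • e1 + d • e2 - (a • e1 + b • e2)) (D X) =
        ((c - a) + (d - b)) * (cr (D Y) (D X) * cr (D Z) (D X)) := by
      rw [he1, he2]
      simp only [cr, Prod.fst_sub, Prod.snd_sub, Prod.fst_add, Prod.snd_add, Prod.smul_fst,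
        Prod.smul_snd, smul_eq_mul]
      ring
    rw [this, h, zero_mul]
  have pY : ∀ a b c d : ℝ, c - a = 0 →
      cr (c • e1 + d • e2 - (a • e1 + b • e2)) (D Y) = 0 := by
    intro a b c d h
    have : cr (c • e1 + d • e2 - (a • e1 + b • e2)) (D Y) =
        (c - a) * (cr (D Y) (D X) * cr (D Z) (D Y)) := by
      rw [he1, he2]
      simp only [cr, Prod.fst_sub, Prod.snd_sub, Prod.fst_add, Prod.snd_add, Prod.smul_fst,
        Prod.smul_snd, smul_eq_mul]
      ring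
    rw [this, h, zero_mul]
  have pZ : ∀ a b c d : ℝ, d - b = 0 →
      cr (c • e1 + d • e2 - (a • e1 + b • e2)) (D Z) = 0 := by
    intro a b c d h
    have : cr (c • e1 + d • e2 - (a • e1 + b • e2)) (D Z) =
        (d - b) * (cr (D Z) (D X) * cr (D Y) (D Z)) := by
      rw [he1, he2]
      simp only [cr, Prod.fst_sub, Prod.snd_sub, Prod.fst_add, Prod.snd_add, Prod.smul_fst,
        Prod.smul_snd, smul_eq_mul]
      ring
    rw [this, h, zero_mul]
  obtain ⟨σ, hσ⟩ : ∃ σ : Fin 8 → Pt, ∀ i, σ i = ((π i).1 : ℝ) • e1 + ((π i).2 : ℝ) • e2 :=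
    ⟨_, fun _ => rfl⟩
  obtain ⟨o, ho⟩ : ∃ o : Fin 8 → Pt, o = ![(3 : ℝ) • e1 + (5 : ℝ) • e2, σ 0, σ 1, σ 2, 0, 0, 0, 0] :=
    ⟨_, rfl⟩
  have hdet : ∀ i j k : Fin 8, Col (σ i) (σ j) (σ k) ↔ detZ i j k = 0 := by
    intro i j k
    rw [hσ, hσ, hσ, hcol, detZ]
    constructor
    · intro h; exact_mod_cast h
    · intro h; exact_mod_cast h
  have s0 : σ 0 = (0 : ℝ) • e1 + (0 : ℝ) • e2 := by rw [hσ]; simp [π]
  have s1 : σ 1 = (1 : ℝ) • e1 + (0 : ℝ) • e2 := by rw [hσ]; simp [π]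
  have s2 : σ 2 = (0 : ℝ) • e1 + (1 : ℝ) • e2 := by rw [hσ]; simp [π]
  have s3 : σ 3 = (-3 : ℝ) • e1 + (-5 : ℝ) • e2 := by rw [hσ]; simp [π]
  have s4 : σ 4 = (-1 : ℝ) • e1 + (-5 : ℝ) • e2 := by rw [hσ]; simp [π]
  have s5 : σ 5 = (-3 : ℝ) • e1 + (-3 : ℝ) • e2 := by rw [hσ]; simp [π]
  have o0 : o 0 = (3 : ℝ) • e1 + (5 : ℝ) • e2 := by rw [ho]; rfl
  have o1 : o 1 = σ 0 := by rw [ho]; rfl
  have o2 : o 2 = σ 1 := by rw [ho]; rfl
  have o3 : o 3 = σ 2 := by rw [ho]; rfl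
  refine ⟨σ, o, ?_, ?_, ?_⟩
  · intro i j hij
    rw [hσ, hσ] at hij
    apply pi_inj
    have h1 : cr (((π i).1 : ℝ) • e1 + ((π i).2 : ℝ) • e2) e2 =
        cr (((π j).1 : ℝ) • e1 + ((π j).2 : ℝ) • e2) e2 := by rw [hij]
    have h2 : cr e1 (((π i).1 : ℝ) • e1 + ((π i).2 : ℝ) • e2) =
        cr e1 (((π j).1 : ℝ) • e1 + ((π j).2 : ℝ) • e2) := by rw [hij]
    have k1 : ((π i).1 : ℝ) * cr e1 e2 = ((π j).1 : ℝ) * cr e1 e2 := by
      simp only [cr, Prod.fst_add, Prod.snd_add, Prod.smul_fst, Prod.smul_snd, smul_eq_mul] at h1 ⊢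
      linarith
    have k2 : ((π i).2 : ℝ) * cr e1 e2 = ((π j).2 : ℝ) * cr e1 e2 := by
      simp only [cr, Prod.fst_add, Prod.snd_add, Prod.smul_fst, Prod.smul_snd, smul_eq_mul] at h2 ⊢
      linarith
    have l1 := mul_right_cancel₀ hE k1
    have l2 := mul_right_cancel₀ hE k2
    exact Prod.ext (by exact_mod_cast l1) (by exact_mod_cast l2)
  · intro e he f hf hef
    rw [hdet, hdet]
    exact detZ_dist e (by simpa [gadP] using he) f (by simpa [gadP] using hf) hef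
  · intro j e he
    simp only [gadg, if_true, prE, List.mem_cons, List.not_mem_nil, or_false] at he
    rcases he with rfl | rfl | rfl | rfl | rfl | rfl | rfl | rfl | rfl | rfl | rfl | rfl
    · refine ⟨(1, 2), by simp [gadP, prP], rfl, rfl, Or.inl ⟨mX, ?_⟩⟩
      simp only; rw [s1, s2]; exact pX _ _ _ _ (by norm_num)
    · refine ⟨(4, 5), by simp [gadP, prP], rfl, rfl, Or.inl ⟨mX, ?_⟩⟩
      simp only; rw [s4, s5]; exact pX _ _ _ _ (by norm_num)
    · refine ⟨(2, 0), by simp [gadP, prP], rfl, rfl, Or.inl ⟨mY, ?_⟩⟩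
      simp only; rw [s2, s0]; exact pY _ _ _ _ (by norm_num)
    · refine ⟨(5, 3), by simp [gadP, prP], rfl, rfl, Or.inl ⟨mY, ?_⟩⟩
      simp only; rw [s5, s3]; exact pY _ _ _ _ (by norm_num)
    · refine ⟨(0, 1), by simp [gadP, prP], rfl, rfl, Or.inl ⟨mZ, ?_⟩⟩
      simp only; rw [s0, s1]; exact pZ _ _ _ _ (by norm_num)
    · refine ⟨(3, 4), by simp [gadP, prP], rfl, rfl, Or.inl ⟨mZ, ?_⟩⟩
      simp only; rw [s3, s4]; exact pZ _ _ _ _ (by norm_num)
    · refine ⟨(0, 3), by simp [gadP, prP], rfl, rfl, Or.inr ⟨0, rfl, ?_⟩⟩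
      simp only; rw [s0, s3, o0, hcol]; norm_num
    · refine ⟨(1, 4), by simp [gadP, prP], rfl, rfl, Or.inr ⟨0, rfl, ?_⟩⟩
      simp only; rw [s1, s4, o0, hcol]; norm_num
    · refine ⟨(2, 5), by simp [gadP, prP], rfl, rfl, Or.inr ⟨0, rfl, ?_⟩⟩
      simp only; rw [s2, s5, o0, hcol]; norm_num
    · refine ⟨(0, 4), by simp [gadP, prP], rfl, rfl, Or.inr ⟨1, rfl, ?_⟩⟩
      simp only; rw [o1]; exact col_self_left _ _
    · refine ⟨(1, 5), by simp [gadP, prP], rfl, rfl, Or.inr ⟨2, rfl, ?_⟩⟩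
      simp only; rw [o2]; exact col_self_left _ _
    · refine ⟨(2, 3), by simp [gadP, prP], rfl, rfl, Or.inr ⟨3, rfl, ?_⟩⟩
      simp only; rw [o3]; exact col_self_left _ _

/-- Triples of local vertices which will not be collinear. -/
def nc (i j k : Fin 8) : Bool :=
  (i.val < 4 && j.val < 4 && i ≠ j && (4 ≤ k.val || (k ≠ i && k ≠ j))) ||
  (4 ≤ i.val && 4 ≤ j.val && i ≠ j && (k.val < 4 || (k ≠ i && k ≠ j))) ||
  (j.val = i.val + 4 && k.val % 4 ≠ i.val % 4)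

set_option maxRecDepth 100000 in
theorem nc_dist : ∀ e ∈ quP, ∀ f ∈ quP, e ≠ f → nc e.1 e.2 f.1 = true ∨ nc e.1 e.2 f.2 = true := by
  decide

theorem perm4 {κ : Fin 4 → Pt} (n012 : ¬ Col (κ 0) (κ 1) (κ 2)) (n013 : ¬ Col (κ 0) (κ 1) (κ 3))
    (n023 : ¬ Col (κ 0) (κ 2) (κ 3)) (n123 : ¬ Col (κ 1) (κ 2) (κ 3)) :
    ∀ a b c : Fin 4, a ≠ b → a ≠ c → b ≠ c → ¬ Col (κ a) (κ b) (κ c) := by
  intro a b c hab hac hbc h
  have h1 := col_swap.1 h
  have h2 := col_swap'.1 h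
  have h3 := col_rot.1 h
  have h4 := col_rot.1 h3
  have h5 := col_swap.1 h3
  fin_cases a <;> fin_cases b <;> fin_cases c <;>
  first
    | exact absurd rfl hab
    | exact absurd rfl hac
    | exact absurd rfl hbc
    | exact n012 h | exact n012 h1 | exact n012 h2 | exact n012 h3 | exact n012 h4 | exact n012 h5
    | exact n013 h | exact n013 h1 | exact n013 h2 | exact n013 h3 | exact n013 h4 | exact n013 h5
    | exact n023 h | exact n023 h1 | exact n023 h2 | exact n023 h3 | exact n023 h4 | exact n023 h5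
    | exact n123 h | exact n123 h1 | exact n123 h2 | exact n123 h3 | exact n123 h4 | exact n123 h5

/-- base index -/
def bi (i : Fin 8) : Fin 4 := ⟨i.val % 4, Nat.mod_lt _ (by norm_num)⟩

theorem bi_inj_lo : ∀ i j : Fin 8, i.val < 4 → j.val < 4 → bi i = bi j → i = j := by decide

theorem bi_inj_hi : ∀ i j : Fin 8, 4 ≤ i.val → 4 ≤ j.val → bi i = bi j → i = j := by decide

theorem double {κ : Fin 4 → Pt}
    (hκ : ∀ a b c : Fin 4, a ≠ b → a ≠ c → b ≠ c → ¬ Col (κ a) (κ b) (κ c)) :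
    ∃ (τ : Pt) (σ : Fin 8 → Pt), (∀ i, i.val < 4 → σ i = κ (bi i)) ∧
      (∀ i, 4 ≤ i.val → σ i = κ (bi i) + τ) ∧ Function.Injective σ ∧
      ∀ i j k, nc i j k = true → ¬ Col (σ i) (σ j) (σ k) := by
  have hne : ∀ a b : Fin 4, a ≠ b → κ a ≠ κ b := by
    intro a b hab he
    obtain ⟨c, hca, hcb⟩ : ∃ c : Fin 4, a ≠ c ∧ b ≠ c := by
      have : ∀ a b : Fin 4, ∃ c : Fin 4, a ≠ c ∧ b ≠ c := by decide
      exact this a b
    apply hκ a b c hab hca hcb
    rw [he]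
    simp [Col, cr]
  have e1 : ∀ᶠ t : ℝ in cofinite, ∀ a b k : Fin 4, a ≠ b → ¬ Col (κ a) (κ b) (κ k + mv t) := by
    refine eventually_all.2 (fun a => eventually_all.2 (fun b => eventually_all.2 (fun k => ?_)))
    by_cases hab : a = b
    · exact Eventually.of_forall (fun t h => absurd hab h)
    · exact (off_translate _ _ _ (hne a b hab)).mono (fun t ht _ => ht)
  have e2 : ∀ᶠ t : ℝ in cofinite, ∀ a b k : Fin 4, a ≠ b →
      ¬ Col (κ a + mv t) (κ b + mv t) (κ k) := by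
    refine eventually_all.2 (fun a => eventually_all.2 (fun b => eventually_all.2 (fun k => ?_)))
    by_cases hab : a = b
    · exact Eventually.of_forall (fun t h => absurd hab h)
    · have := cr_gen (κ k - κ a) (κ b - κ a) (sub_ne_zero.2 (hne a b hab).symm)
      refine this.mono ?_
      intro t ht _ hc
      apply ht
      simp only [Col] at hc
      rw [← hc]
      simp only [cr, mv, Prod.fst_sub, Prod.snd_sub, Prod.fst_add, Prod.snd_add]
      ring
  have e3 : ∀ᶠ t : ℝ in cofinite, ∀ a b : Fin 4, a ≠ b → cr (mv t) (κ b - κ a) ≠ 0 := by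
    refine eventually_all.2 (fun a => eventually_all.2 (fun b => ?_))
    by_cases hab : a = b
    · exact Eventually.of_forall (fun t h => absurd hab h)
    · have := cr_gen 0 (κ b - κ a) (sub_ne_zero.2 (hne a b hab).symm)
      refine this.mono ?_
      intro t ht _
      simpa [mv] using ht
  obtain ⟨t, ⟨h1, h2⟩, h3⟩ := ((e1.and e2).and e3).exists
  refine ⟨mv t, fun i => if i.val < 4 then κ (bi i) else κ (bi i) + mv t, ?_, ?_, ?_, ?_⟩
  · intro i hi; simp only [if_pos hi]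
  · intro i hi; simp only [if_neg (not_lt.2 hi)]
  · intro i j hij
    simp only at hij
    by_cases hi : i.val < 4 <;> by_cases hj : j.val < 4
    · rw [if_pos hi, if_pos hj] at hij
      by_contra hne'
      exact hne _ _ (fun h => hne' (bi_inj_lo i j hi hj h)) hij
    · rw [if_pos hi, if_neg hj] at hij
      exfalso
      obtain ⟨c, hc⟩ : ∃ c : Fin 4, bi i ≠ c := by
        generalize bi i = a; revert a; decide
      apply h1 (bi i) c (bi j) hc
      rw [← hij]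
      exact col_self_left _ _
    · rw [if_neg hi, if_pos hj] at hij
      exfalso
      obtain ⟨c, hc⟩ : ∃ c : Fin 4, bi j ≠ c := by
        generalize bi j = a; revert a; decide
      apply h1 (bi j) c (bi i) hc
      rw [hij]
      exact col_self_left _ _
    · rw [if_neg hi, if_neg hj] at hij
      by_contra hne'
      exact hne _ _ (fun h => hne' (bi_inj_hi i j (not_lt.1 hi) (not_lt.1 hj) h))
        (add_right_cancel hij)
  · intro i j k hnc
    simp only [nc, Bool.or_eq_true, Bool.and_eq_true, decide_eq_true_eq] at hnc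
    rcases hnc with (⟨⟨⟨hi, hj⟩, hij⟩, hk⟩ | ⟨⟨⟨hi, hj⟩, hij⟩, hk⟩) | ⟨hj, hk⟩
    · have hb : bi i ≠ bi j := fun h => hij (bi_inj_lo i j hi hj h)
      simp only [if_pos hi, if_pos hj]
      by_cases hk4 : k.val < 4
      · rcases hk with hk | ⟨hk1, hk2⟩
        · omega
        · rw [if_pos hk4]
          exact hκ _ _ _ hb (fun h => hk1 (bi_inj_lo i k hi hk4 h).symm)
            (fun h => hk2 (bi_inj_lo j k hj hk4 h).symm)
      · rw [if_neg hk4]
        exact h1 _ _ _ hb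
    · have hb : bi i ≠ bi j := fun h => hij (bi_inj_hi i j hi hj h)
      simp only [if_neg (not_lt.2 hi), if_neg (not_lt.2 hj)]
      by_cases hk4 : k.val < 4
      · rw [if_pos hk4]
        exact h2 _ _ _ hb
      · rcases hk with hk | ⟨hk1, hk2⟩
        · omega
        · rw [if_neg hk4, col_add]
          exact hκ _ _ _ hb (fun h => hk1 (bi_inj_hi i k hi (not_lt.1 hk4) h).symm)
            (fun h => hk2 (bi_inj_hi j k hj (not_lt.1 hk4) h).symm)
    · have hi : i.val < 4 := by omega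
      have hj4 : ¬ j.val < 4 := by omega
      have hbij : bi j = bi i := by
        simp only [bi, Fin.mk.injEq]; omega
      have hb : bi i ≠ bi k := by
        simp only [bi, ne_eq, Fin.mk.injEq]; omega
      simp only [if_pos hi, if_neg hj4]
      rw [hbij]
      have h4 := h3 _ _ hb
      by_cases hk4 : k.val < 4
      · rw [if_pos hk4]
        intro hc
        apply h4
        simp only [Col] at hc
        rw [← hc]
        simp only [cr, mv, Prod.fst_sub, Prod.snd_sub, Prod.fst_add, Prod.snd_add]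
        ring
      · rw [if_neg hk4]
        intro hc
        apply h4
        simp only [Col] at hc
        rw [← hc]
        simp only [cr, mv, Prod.fst_sub, Prod.snd_sub, Prod.fst_add, Prod.snd_add]
        ring

theorem quad_shape (D : ℕ → Pt) {E A B C F : ℕ} (mE : E % 3 ≠ 2) (mA : A % 3 ≠ 2)
    (mB : B % 3 ≠ 2) (mC : C % 3 ≠ 2) (mF : F % 3 ≠ 2) {a b c d μ : ℝ} (hA : D A = (1, a))
    (hB : D B = (1, b)) (hC : D C = (1, c)) (hF : D F = (1, d)) (h3 : D 3 = (0, 1))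
    (hac : a ≠ c) (had : a ≠ d) (hbc : b ≠ c) (hμ : μ ≠ 0) (h24 : (d - b) * μ = a - c)
    (h12 : cr ((μ, d * μ - a) - (1, 0)) (D E) = 0) :
    ∃ σ o, Sh D (1, E, A, B, C, F) σ o := by
  obtain ⟨κ, hκ⟩ : ∃ κ : Fin 4 → Pt, κ = ![(1, 0), (μ, d * μ - a), (0, -a), (0, -c)] := ⟨_, rfl⟩
  have k0 : κ 0 = (1, 0) := by rw [hκ]; rfl
  have k1 : κ 1 = (μ, d * μ - a) := by rw [hκ]; rfl
  have k2 : κ 2 = (0, -a) := by rw [hκ]; rfl
  have k3 : κ 3 = (0, -c) := by rw [hκ]; rfl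
  have n012 : ¬ Col (κ 0) (κ 1) (κ 2) := by
    rw [k0, k1, k2]
    simp only [Col, cr, Prod.fst_sub, Prod.snd_sub]
    intro h
    have : (d - a) * μ = 0 := by linarith
    rcases mul_eq_zero.1 this with h | h
    · apply had; linarith
    · exact hμ h
  have n013 : ¬ Col (κ 0) (κ 1) (κ 3) := by
    rw [k0, k1, k3]
    simp only [Col, cr, Prod.fst_sub, Prod.snd_sub]
    intro h
    have : (b - c) * μ = 0 := by linarith
    rcases mul_eq_zero.1 this with h | h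
    · apply hbc; linarith
    · exact hμ h
  have n023 : ¬ Col (κ 0) (κ 2) (κ 3) := by
    rw [k0, k2, k3]
    simp only [Col, cr, Prod.fst_sub, Prod.snd_sub]
    intro h
    apply hac
    linarith
  have n123 : ¬ Col (κ 1) (κ 2) (κ 3) := by
    rw [k1, k2, k3]
    simp only [Col, cr, Prod.fst_sub, Prod.snd_sub]
    intro h
    have : (c - a) * μ = 0 := by linarith
    rcases mul_eq_zero.1 this with h | h
    · apply hac; linarith
    · exact hμ h
  obtain ⟨τ, σ, h1, h2, hinj, hnc⟩ := double (perm4 n012 n013 n023 n123)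
  have s0 : σ 0 = κ 0 := h1 0 (by decide)
  have s1 : σ 1 = κ 1 := h1 1 (by decide)
  have s2 : σ 2 = κ 2 := h1 2 (by decide)
  have s3 : σ 3 = κ 3 := h1 3 (by decide)
  have s4 : σ 4 = κ 0 + τ := h2 4 (by decide)
  have s5 : σ 5 = κ 1 + τ := h2 5 (by decide)
  have s6 : σ 6 = κ 2 + τ := h2 6 (by decide)
  have s7 : σ 7 = κ 3 + τ := h2 7 (by decide)
  have q01 : cr (κ 1 - κ 0) (D E) = 0 := by rw [k0, k1]; exact h12
  have q23 : cr (κ 3 - κ 2) (D 3) = 0 := by
    rw [k2, k3, h3]; simp [cr]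
  have q02 : cr (κ 2 - κ 0) (D A) = 0 := by
    rw [k0, k2, hA]; simp only [cr, Prod.fst_sub, Prod.snd_sub]; ring
  have q13 : cr (κ 3 - κ 1) (D B) = 0 := by
    rw [k1, k3, hB]; simp only [cr, Prod.fst_sub, Prod.snd_sub]; linarith
  have q03 : cr (κ 3 - κ 0) (D C) = 0 := by
    rw [k0, k3, hC]; simp only [cr, Prod.fst_sub, Prod.snd_sub]; ring
  have q12 : cr (κ 2 - κ 1) (D F) = 0 := by
    rw [k1, k2, hF]; simp only [cr, Prod.fst_sub, Prod.snd_sub]; ring
  refine ⟨σ, ![σ 0, σ 1, σ 2, σ 3, 0, 0, 0, 0], hinj, ?_, ?_⟩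
  · intro e he f hf hef
    have he' : e ∈ quP := by simpa [gadP] using he
    have hf' : f ∈ quP := by simpa [gadP] using hf
    rcases nc_dist e he' f hf' hef with h | h
    · exact fun hc => hnc _ _ _ h hc.1
    · exact fun hc => hnc _ _ _ h hc.2
  · intro j e he
    simp only [gadg, one_ne_zero, if_false, quE, List.mem_cons, List.not_mem_nil, or_false] at he
    rcases he with rfl | rfl | rfl | rfl | rfl | rfl | rfl | rfl | rfl | rfl | rfl | rfl | rfl |
      rfl | rfl | rfl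
    · exact ⟨(0, 1), by simp [gadP, quP], rfl, rfl, Or.inl ⟨mE, by simp only; rw [s0, s1]; exact q01⟩⟩
    · exact ⟨(2, 3), by simp [gadP, quP], rfl, rfl, Or.inl ⟨(by decide : 3 % 3 ≠ 2), by
        simp only; rw [s2, s3]; exact q23⟩⟩
    · exact ⟨(0, 2), by simp [gadP, quP], rfl, rfl, Or.inl ⟨mA, by simp only; rw [s0, s2]; exact q02⟩⟩
    · exact ⟨(1, 3), by simp [gadP, quP], rfl, rfl, Or.inl ⟨mB, by simp only; rw [s1, s3]; exact q13⟩⟩
    · exact ⟨(0, 3), by simp [gadP, quP], rfl, rfl, Or.inl ⟨mC, by simp only; rw [s0, s3]; exact q03⟩⟩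
    · exact ⟨(1, 2), by simp [gadP, quP], rfl, rfl, Or.inl ⟨mF, by simp only; rw [s1, s2]; exact q12⟩⟩
    · exact ⟨(4, 5), by simp [gadP, quP], rfl, rfl, Or.inl ⟨mE, by
        simp only; rw [s4, s5, cr_add]; exact q01⟩⟩
    · exact ⟨(6, 7), by simp [gadP, quP], rfl, rfl, Or.inl ⟨(by decide : 3 % 3 ≠ 2), by
        simp only; rw [s6, s7, cr_add]; exact q23⟩⟩
    · exact ⟨(4, 6), by simp [gadP, quP], rfl, rfl, Or.inl ⟨mA, by
        simp only; rw [s4, s6, cr_add]; exact q02⟩⟩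
    · exact ⟨(5, 7), by simp [gadP, quP], rfl, rfl, Or.inl ⟨mB, by
        simp only; rw [s5, s7, cr_add]; exact q13⟩⟩
    · exact ⟨(4, 7), by simp [gadP, quP], rfl, rfl, Or.inl ⟨mC, by
        simp only; rw [s4, s7, cr_add]; exact q03⟩⟩
    · exact ⟨(5, 6), by simp [gadP, quP], rfl, rfl, Or.inl ⟨mF, by
        simp only; rw [s5, s6, cr_add]; exact q12⟩⟩
    · exact ⟨(0, 4), by simp [gadP, quP], rfl, rfl, Or.inr ⟨0, rfl, col_self_left _ _⟩⟩
    · exact ⟨(1, 5), by simp [gadP, quP], rfl, rfl, Or.inr ⟨1, rfl, col_self_left _ _⟩⟩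
    · exact ⟨(2, 6), by simp [gadP, quP], rfl, rfl, Or.inr ⟨2, rfl, col_self_left _ _⟩⟩
    · exact ⟨(3, 7), by simp [gadP, quP], rfl, rfl, Or.inr ⟨3, rfl, col_self_left _ _⟩⟩

end Pool.Agent.H621R2.Fd
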