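import Pool.Agent.H621R2.Fd.Inst
import Pool.Agent.H621R2.Fd.Quad

/-!
Faithful drawings: soundness of the reduction.
-/

set_option autoImplicit false

namespace Pool.Agent.H621R2.Fd

open Pool.Agent.H621R2

/-- the end vertices of the edges -/
def V (G : CG) : Set ℕ := {v | ∃ e ∈ G, e.1 = v ∨ e.2.1 = v}

/-- A faithful drawing, with the points `P` of the colours. -/
structure FD (G : CG) (p P : ℕ → Pt) : Prop where
  inj : Set.InjOn p (V G)
  col : ∀ e ∈ G, Col (p e.1) (p e.2.1) (P e.2.2)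
  dist : ∀ e ∈ G, ∀ f ∈ G, e ≠ f → ¬ (Col (p e.1) (p e.2.1) (p f.1) ∧ Col (p e.1) (p e.2.1) (p f.2.1))

theorem FD.nc {G : CG} {p P : ℕ → Pt} (h : FD G p P) {u v w c c' : ℕ}
    (h1 : (u, v, c) ∈ G ∨ (v, u, c) ∈ G) (h2 : (u, w, c') ∈ G ∨ (w, u, c') ∈ G) (hvw : v ≠ w) :
    ¬ Col (p u) (p v) (p w) := by
  intro hc
  have hc' : Col (p v) (p u) (p w) := col_swap.1 hc
  rcases h1 with h1 | h1 <;> rcases h2 with h2 | h2
  · refine h.dist _ h1 _ h2 (fun he => hvw ?_) ⟨col_self_left _ _, hc⟩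
    simp only [Prod.mk.injEq] at he
    exact he.2.1
  · refine h.dist _ h1 _ h2 (fun he => hvw ?_) ⟨hc, col_self_left _ _⟩
    simp only [Prod.mk.injEq] at he
    exact he.2.1.trans he.1
  · refine h.dist _ h1 _ h2 (fun he => hvw ?_) ⟨col_self_right _ _, hc'⟩
    simp only [Prod.mk.injEq] at he
    exact he.1.trans he.2.1
  · refine h.dist _ h1 _ h2 (fun he => hvw ?_) ⟨hc', col_self_right _ _⟩
    simp only [Prod.mk.injEq] at he
    exact he.1

theorem vx_ne {j a b : ℕ} (h : a ≠ b) : vx j a ≠ vx j b := by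
  simp only [vx]; omega

theorem prism_sound {G : CG} {p P : ℕ → Pt} (h : FD G p P) {X Y Z j : ℕ}
    (hm : ∀ e ∈ prE X Y Z j, e ∈ G) :
    P X ≠ P Y ∧ P X ≠ P Z ∧ P Y ≠ P Z ∧ Col (P X) (P Y) (P Z) := by
  have c : ∀ {u v c : ℕ}, (u, v, c) ∈ prE X Y Z j → Col (p u) (p v) (P c) :=
    fun he => h.col _ (hm _ he)
  have n : ∀ {u v w c c' : ℕ}, ((u, v, c) ∈ prE X Y Z j ∨ (v, u, c) ∈ prE X Y Z j) →
      ((u, w, c') ∈ prE X Y Z j ∨ (w, u, c') ∈ prE X Y Z j) → v ≠ w → ¬ Col (p u) (p v) (p w) := by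
    intro u v w c c' h1 h2 h3
    exact h.nc (h1.imp (hm _) (hm _)) (h2.imp (hm _) (hm _)) h3
  refine prism (a := p (vx j 0)) (b := p (vx j 1)) (c := p (vx j 2)) (a' := p (vx j 3))
    (b' := p (vx j 4)) (c' := p (vx j 5)) (O := P (cF j 0))
    (c (by simp [prE])) (c (by simp [prE])) (c (by simp [prE])) (c (by simp [prE]))
    (c (by simp [prE])) (c (by simp [prE])) (c (by simp [prE])) (c (by simp [prE]))
    (c (by simp [prE])) ?_ ?_ ?_ ?_ ?_ ?_ ?_ ?_ ?_ ?_ ?_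
  · exact n (c := Z) (c' := Y) (by simp [prE]) (by simp [prE]) (vx_ne (by decide))
  · exact n (c := Z) (c' := cF j 0) (by simp [prE]) (by simp [prE]) (vx_ne (by decide))
  · exact n (c := Y) (c' := cF j 0) (by simp [prE]) (by simp [prE]) (vx_ne (by decide))
  · exact n (c := Z) (c' := cF j 0) (by simp [prE]) (by simp [prE]) (vx_ne (by decide))
  · exact n (c := X) (c' := cF j 0) (by simp [prE]) (by simp [prE]) (vx_ne (by decide))
  · exact n (c := Y) (c' := cF j 0) (by simp [prE]) (by simp [prE]) (vx_ne (by decide))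
  · exact n (c := X) (c' := cF j 0) (by simp [prE]) (by simp [prE]) (vx_ne (by decide))
  · exact n (c := Y) (c' := cF j 0) (by simp [prE]) (by simp [prE]) (vx_ne (by decide))
  · exact n (c := Z) (c' := cF j 0) (by simp [prE]) (by simp [prE]) (vx_ne (by decide))
  · exact n (c := X) (c' := cF j 0) (by simp [prE]) (by simp [prE]) (vx_ne (by decide))
  · exact n (c := X) (c' := cF j 0) (by simp [prE]) (by simp [prE]) (vx_ne (by decide))

theorem mem_specs_idx {L : List Spec} {s : Spec} (hs : s ∈ L) : ∃ j, ∀ e ∈ gadg s j, e ∈ inst L := by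
  obtain ⟨j, hj⟩ := mem_zipIdx_of_mem hs 0
  exact ⟨j, fun e he => List.mem_flatMap.2 ⟨(s, j), hj, he⟩⟩

theorem prism_spec {L : List Spec} {p P : ℕ → Pt} (h : FD (inst L) p P) {X Y Z : ℕ}
    (hs : (0, X, Y, Z, 0, 0) ∈ L) : P X ≠ P Y ∧ P X ≠ P Z ∧ P Y ≠ P Z ∧ Col (P X) (P Y) (P Z) := by
  obtain ⟨j, hj⟩ := mem_specs_idx hs
  exact prism_sound h (j := j) (by simpa [gadg] using hj)

theorem sound {G : List Gt} {p P : ℕ → Pt} (h : FD (inst (specs G)) p P) :
    ∃ (fin : ℕ → Prop) (val : ℕ → ℝ), fin 0 ∧ val 0 = 0 ∧ fin 2 ∧ val 2 = 1 ∧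
      ∀ g ∈ G, SoundGate fin val g := by
  obtain ⟨b1, b2, b3, b4⟩ := prism_spec h (X := 3) (Y := 0) (Z := 6) (by simp [specs])
  obtain ⟨d, hd⟩ : ∃ d, d = P 0 - P 3 := ⟨_, rfl⟩
  have hd0 : d ≠ 0 := by rw [hd]; exact sub_ne_zero.2 b1.symm
  obtain ⟨g, hg⟩ : ∃ g : Pt, g = (-d.2, d.1) := ⟨_, rfl⟩
  have hD : cr d g ≠ 0 := by
    rw [hg]
    simp only [cr]
    intro h0
    apply hd0
    have h1 : d.1 * d.1 + d.2 * d.2 = 0 := by linarith
    have h2 : d.1 = 0 := by nlinarith [mul_self_nonneg d.1, mul_self_nonneg d.2]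
    have h3 : d.2 = 0 := by nlinarith [mul_self_nonneg d.1, mul_self_nonneg d.2]
    exact Prod.ext h2 h3
  have hpar : ∀ Q : Pt, ∃ s : ℝ, Col (P 3) (P 0) Q → Q = P 3 + s • d := by
    intro Q
    by_cases hc : Col (P 3) (P 0) Q
    · obtain ⟨s, hs⟩ := exists_param_of_col b1 hc
      exact ⟨s, fun _ => by rw [hd]; exact hs⟩
    · exact ⟨0, fun h => absurd h hc⟩
  choose s hs using hpar
  have hsinj : ∀ t : ℝ, P 3 = P 3 + t • d → t = 0 := by
    intro t ht
    have : t • d = 0 := by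
      have := congrArg (fun z => z - P 3) ht
      simpa using this.symm
    exact (smul_eq_zero.1 this).resolve_right hd0
  have s3 : s (P 3) = 0 := hsinj _ (hs _ (col_self_left _ _))
  have s0 : s (P 0) = 1 := by
    have h1 := hs _ (col_self_right (P 3) (P 0))
    have h3 : s (P 0) • d = d := by
      have h4 : P 0 - P 3 = s (P 0) • d := by
        rw [sub_eq_iff_eq_add']; exact h1
      exact h4.symm.trans hd.symm
    have h2 : P 3 = P 3 + (s (P 0) - 1) • d := by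
      rw [sub_smul, one_smul, h3, sub_self, add_zero]
    linarith [hsinj _ h2]
  have sne : ∀ {Q R : Pt}, Col (P 3) (P 0) Q → Col (P 3) (P 0) R → Q ≠ R → s Q ≠ s R := by
    intro Q R hQ hR hne he
    apply hne
    rw [hs Q hQ, hs R hR, he]
  have sn0 : ∀ {Q : Pt}, Col (P 3) (P 0) Q → P 3 ≠ Q → s Q ≠ 0 := by
    intro Q hQ hne
    have := sne (col_self_left _ _) hQ hne
    rw [s3] at this
    exact this.symm
  obtain ⟨w, hw⟩ : ∃ w : ℕ → ℝ, w = fun n => 1 / s (P (cN n)) := ⟨_, rfl⟩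
  have w0 : w 0 = 1 := by rw [hw]; simp [cN, s0]
  have w2 : w 2 - 1 ≠ 0 := by
    rw [hw]
    simp only [cN]
    have h1 : s (P 6) ≠ 0 := sn0 b4 b2
    have h2 : s (P 6) ≠ 1 := by
      have := sne b4 (col_self_right (P 3) (P 0)) b3.symm
      rwa [s0] at this
    intro h3
    apply h2
    field_simp at h3
    norm_num at h3
    linarith
  refine ⟨fun _ => True, fun n => (w n - 1) / (w 2 - 1), trivial, by simp [w0], trivial,
    by field_simp, ?_⟩
  intro gt hgt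
  obtain ⟨k, hk⟩ := mem_zipIdx_of_mem hgt 0
  obtain ⟨e, a, b, c, dd⟩ := gt
  have hmem : ∀ u ∈ spG (e, a, b, c, dd) k, u ∈ specs G := fun u hu =>
    List.mem_cons_of_mem _ (List.mem_flatMap.2 ⟨((e, a, b, c, dd), k), hk, hu⟩)
  obtain ⟨p1, p2, p3, p4⟩ := prism_spec h (X := 3) (Y := 0) (Z := cW k) (hmem _ (by simp [spG]))
  -- every colour attached to the auxiliary one is on the axis
  have onL : ∀ {X : ℕ}, (0, 3, cW k, X, 0, 0) ∈ specs G → P 3 ≠ P X ∧ Col (P 3) (P 0) (P X) := by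
    intro X hX
    obtain ⟨q1, q2, q3, q4⟩ := prism_spec h hX
    exact ⟨q2, col_trans q1 (col_swap'.1 p4) q4⟩
  obtain ⟨ea, la⟩ := onL (X := cN a) (hmem _ (by simp [spG]))
  obtain ⟨eb, lb⟩ := onL (X := cN b) (hmem _ (by simp [spG]))
  obtain ⟨ec, lc⟩ := onL (X := cN c) (hmem _ (by simp [spG]))
  obtain ⟨ed, ld⟩ := onL (X := cN dd) (hmem _ (by simp [spG]))
  have le : Col (P 3) (P 0) (P (cN e)) := by
    by_cases he : e = 1
    · rw [he]; exact col_self_left _ _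
    · exact (onL (X := cN e) (hmem _ (by simp [spG, he]))).2
  obtain ⟨t1, t2, t3, -⟩ := prism_spec h (X := cN e) (Y := cN a) (Z := cN c) (hmem _ (by simp [spG]))
  obtain ⟨t4, t5, t6, -⟩ := prism_spec h (X := cN e) (Y := cN b) (Z := cN dd)
    (hmem _ (by simp [spG]))
  obtain ⟨t7, t8, t9, -⟩ := prism_spec h (X := 3) (Y := cN a) (Z := cN dd) (hmem _ (by simp [spG]))
  obtain ⟨t10, t11, t12, -⟩ := prism_spec h (X := 3) (Y := cN b) (Z := cN c)
    (hmem _ (by simp [spG]))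
  obtain ⟨j, hj⟩ := mem_specs_idx (hmem (1, cN e, cN a, cN b, cN c, cN dd) (by simp [spG]))
  have hj' : ∀ x ∈ quE (cN e) (cN a) (cN b) (cN c) (cN dd) j, x ∈ inst (specs G) := by
    simpa [gadg] using hj
  have cc : ∀ {u v x : ℕ}, (u, v, x) ∈ quE (cN e) (cN a) (cN b) (cN c) (cN dd) j →
      Col (P 3) (P 0) (P x) → Col (p u) (p v) (P 3 + s (P x) • d) := by
    intro u v x hx hl
    rw [← hs _ hl]
    exact h.col _ (hj' _ hx)
  have nn : ∀ {u v w x y : ℕ}, ((u, v, x) ∈ quE (cN e) (cN a) (cN b) (cN c) (cN dd) j ∨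
      (v, u, x) ∈ quE (cN e) (cN a) (cN b) (cN c) (cN dd) j) →
      ((u, w, y) ∈ quE (cN e) (cN a) (cN b) (cN c) (cN dd) j ∨
      (w, u, y) ∈ quE (cN e) (cN a) (cN b) (cN c) (cN dd) j) → v ≠ w →
      ¬ Col (p u) (p v) (p w) := by
    intro u v w x y h1 h2 h3
    exact h.nc (h1.imp (hj' _) (hj' _)) (h2.imp (hj' _) (hj' _)) h3
  have main := quad_sound (A := P 3) (d := d) (g := g) hD (v1 := p (vx j 0)) (v2 := p (vx j 1))
    (v3 := p (vx j 2)) (v4 := p (vx j 3)) (sE := s (P (cN e))) (sA := s (P (cN a)))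
    (sB := s (P (cN b))) (sC := s (P (cN c))) (sD := s (P (cN dd)))
    (cc (by simp [quE]) le)
    (h.col (vx j 2, vx j 3, 3) (hj' _ (by simp [quE])))
    (cc (by simp [quE]) la) (cc (by simp [quE]) lb) (cc (by simp [quE]) lc) (cc (by simp [quE]) ld)
    (nn (x := cN e) (y := cN a) (by simp [quE]) (by simp [quE]) (vx_ne (by decide)))
    (nn (x := cN e) (y := cN c) (by simp [quE]) (by simp [quE]) (vx_ne (by decide)))
    (nn (x := cN a) (y := cN c) (by simp [quE]) (by simp [quE]) (vx_ne (by decide)))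
    (nn (x := cN dd) (y := cN b) (by simp [quE]) (by simp [quE]) (vx_ne (by decide)))
    (sne le la t1) (sne le lc t2) (sne la lc t3) (sne le lb t4) (sne le ld t5) (sne lb ld t6)
    (sn0 la ea) (sn0 ld ed) (sne la ld t9) (sn0 lb eb) (sn0 lc ec) (sne lb lc t12)
  have hwn : ∀ n, w n = 1 / s (P (cN n)) := fun n => by rw [hw]
  rw [← hwn, ← hwn, ← hwn, ← hwn, ← hwn] at main
  constructor
  · intro he _
    refine ⟨trivial, trivial, trivial, ?_⟩
    simp only at he ⊢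
    have he0 : s (P (cN e)) = 0 := by rw [he]; exact s3
    have := main.1 he0
    field_simp
    linarith
  · intro he _ _ _ _ _
    simp only at he ⊢
    have he0 : s (P (cN e)) ≠ 0 := by
      refine sn0 le ?_
      exact (onL (X := cN e) (hmem _ (by simp [spG, he]))).1
    have := main.2 he0
    field_simp
    linarith

end Pool.Agent.H621R2.Fd
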